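import Pool.Agent.R191.FD.Defs

/-!
# Part A: powers of `b` with prescribed differences
-/

set_option autoImplicit false

namespace Pool.Agent.R191.FD.Ar

open Finset

/-- lifting the exponent: if all primes of `s` divide `B - 1` (and `4 ∣ B - 1` if `s` is even) and all
primes of `q` divide `s`, then `(B - 1) q ∣ B ^ k - 1` implies `q ∣ k` -/
theorem lte {s : ℕ} {B : ℤ} (hB : 2 ≤ B) (hs : ∀ p : ℕ, p.Prime → p ∣ s → (p : ℤ) ∣ B - 1)
    (h4 : 2 ∣ s → (4 : ℤ) ∣ B - 1) {q : ℕ} (hqs : ∀ p : ℕ, p.Prime → p ∣ q → p ∣ s) {k : ℕ}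
    (h : (B - 1) * q ∣ B ^ k - 1) : q ∣ k := by
  rw [Nat.dvd_iff_prime_pow_dvd_dvd]
  intro p e hp he
  rcases Nat.eq_zero_or_pos e with rfl | he0
  · simp
  have hpq : p ∣ q := (dvd_pow_self p he0.ne').trans he
  have hps := hqs p hp hpq
  have hpB := hs p hp hps
  have hpint : Prime (p : ℤ) := Nat.prime_iff_prime_int.1 hp
  have hnB : ¬ (p : ℤ) ∣ B := by
    intro h1
    have h2 : (p : ℤ) ∣ 1 := by
      have := dvd_sub h1 hpB
      simpa using this
    exact hpint.not_isUnit (isUnit_of_dvd_one h2)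
  have hmul : emultiplicity (p : ℤ) (B ^ k - 1 ^ k) = emultiplicity (p : ℤ) (B - 1) +
      emultiplicity (p : ℤ) (k : ℤ) := by
    rcases hp.eq_two_or_odd' with rfl | hodd
    · have := Int.two_pow_sub_pow' k (x := B) (y := 1) (h4 hps) (by exact_mod_cast hnB)
      exact_mod_cast this
    · have := Int.emultiplicity_pow_sub_pow hp hodd (x := B) (y := 1) hpB hnB k
      rw [this]
      congr 1
      exact (Int.natCast_emultiplicity p k).symm
  rw [one_pow] at hmul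
  have h1 : emultiplicity (p : ℤ) ((B - 1) * q) ≤ emultiplicity (p : ℤ) (B ^ k - 1) :=
    emultiplicity_le_emultiplicity_of_dvd_right h
  rw [emultiplicity_mul hpint, hmul] at h1
  have hfin : emultiplicity (p : ℤ) (B - 1) ≠ ⊤ := by
    rw [ne_eq, emultiplicity_eq_top, not_not]
    exact Int.finiteMultiplicity_iff.2 ⟨by simpa using hp.ne_one, by omega⟩
  have h2 : emultiplicity (p : ℤ) (q : ℤ) ≤ emultiplicity (p : ℤ) (k : ℤ) :=
    (ENat.add_le_add_iff_left hfin).1 h1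
  have h3 : (e : ℕ∞) ≤ emultiplicity (p : ℤ) (q : ℤ) :=
    le_emultiplicity_of_pow_dvd (by exact_mod_cast he)
  have h4 : (p : ℤ) ^ e ∣ k := pow_dvd_of_le_emultiplicity (h3.trans h2)
  exact_mod_cast h4

/-- the powers of `B` cover the residue classes `1 + (B - 1) z` modulo `q` -/
theorem cover {s : ℕ} {B : ℤ} (hB : 2 ≤ B) (hs : ∀ p : ℕ, p.Prime → p ∣ s → (p : ℤ) ∣ B - 1)
    (h4 : 2 ∣ s → (4 : ℤ) ∣ B - 1) {q : ℕ} (hq : 1 ≤ q)
    (hqs : ∀ p : ℕ, p.Prime → p ∣ q → p ∣ s) (z : ℤ) :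
    ∃ k : ℕ, (q : ℤ) ∣ B ^ k - (1 + (B - 1) * z) := by
  have : NeZero q := ⟨by omega⟩
  let g : Fin q → ZMod q := fun k => ((∑ i ∈ range (k : ℕ), B ^ i : ℤ) : ZMod q)
  have hco : IsCoprime B ((B - 1) * q) := by
    refine IsCoprime.mul_right ⟨1, -1, by ring⟩ ?_
    rw [Int.isCoprime_iff_nat_coprime, Nat.coprime_iff_gcd_eq_one]
    by_contra hne
    obtain ⟨p, hp, hpd⟩ := Nat.exists_prime_and_dvd hne
    have h1 : p ∣ B.natAbs := hpd.trans (Nat.gcd_dvd_left _ _)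
    have h2 : p ∣ (q : ℤ).natAbs := hpd.trans (Nat.gcd_dvd_right _ _)
    rw [Int.natAbs_natCast] at h2
    have h3 := hs p hp (hqs p hp h2)
    have h5 : (p : ℤ) ∣ B := Int.natCast_dvd.2 h1
    have h6 : (p : ℤ) ∣ 1 := by
      have := dvd_sub h5 h3
      simpa using this
    exact (Nat.prime_iff_prime_int.1 hp).not_isUnit (isUnit_of_dvd_one h6)
  have hinj : Function.Injective g := by
    have hlt : ∀ k l : Fin q, (k : ℕ) < l → g k = g l → False := by
      intro k l hkl he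
      have h1 : (q : ℤ) ∣ (∑ i ∈ range (l : ℕ), B ^ i) - ∑ i ∈ range (k : ℕ), B ^ i := by
        have h2 : ((∑ i ∈ range (k : ℕ), B ^ i : ℤ) : ZMod q) =
          ((∑ i ∈ range (l : ℕ), B ^ i : ℤ) : ZMod q) := he
        exact (ZMod.intCast_eq_intCast_iff_dvd_sub _ _ q).1 h2
      have h2 : (B - 1) * q ∣ B ^ (k : ℕ) * (B ^ ((l : ℕ) - k) - 1) := by
        have h3 : B ^ (k : ℕ) * (B ^ ((l : ℕ) - k) - 1) =
            (B - 1) * ((∑ i ∈ range (l : ℕ), B ^ i) - ∑ i ∈ range (k : ℕ), B ^ i) := by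
          rw [mul_sub (B - 1), mul_geom_sum, mul_geom_sum, mul_sub, ← pow_add,
            Nat.add_sub_cancel' hkl.le]
          ring
        rw [h3]
        exact mul_dvd_mul_left _ h1
      have h3 : (B - 1) * q ∣ B ^ ((l : ℕ) - k) - 1 :=
        (hco.symm.pow_right).dvd_of_dvd_mul_left h2
      have h5 := lte hB hs h4 hqs h3
      have h6 := Nat.le_of_dvd (by omega) h5
      have := l.2
      omega
    intro k l he
    rcases lt_trichotomy (k : ℕ) l with h | h | h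
    · exact (hlt k l h he).elim
    · exact Fin.ext h
    · exact (hlt l k h he.symm).elim
  have hbij : Function.Bijective g := by
    rw [Fintype.bijective_iff_injective_and_card]
    exact ⟨hinj, by simp [ZMod.card]⟩
  obtain ⟨k, hk⟩ := hbij.2 (z : ZMod q)
  refine ⟨k, ?_⟩
  have h1 : (q : ℤ) ∣ z - ∑ i ∈ range (k : ℕ), B ^ i :=
    (ZMod.intCast_eq_intCast_iff_dvd_sub _ _ q).1 hk
  have h2 : B ^ (k : ℕ) - (1 + (B - 1) * z) =
      -((B - 1) * (z - ∑ i ∈ range (k : ℕ), B ^ i)) := by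
    rw [mul_sub, mul_geom_sum]
    ring
  rw [h2]
  exact (dvd_neg.2 (h1.mul_left _))

/-- the powers of `b` below `q` cover the residue classes `1 + M z` modulo `q`, for a fixed `M ≥ 1` -/
theorem cover' {s b : ℕ} (hb : 2 ≤ b) (hs1 : 1 ≤ s) (hsb : Nat.Coprime b s) :
    ∃ M : ℕ, 1 ≤ M ∧ ∀ q : ℕ, 1 ≤ q → (∀ p : ℕ, p.Prime → p ∣ q → p ∣ s) → ∀ z : ℤ,
      ∃ j : ℕ, j < q ∧ (q : ℤ) ∣ (b : ℤ) ^ j - (1 + M * z) := by
  set t := Nat.totient (s ^ 2) with ht
  have ht0 : 0 < t := Nat.totient_pos.2 (by positivity)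
  have hB2 : 2 ≤ b ^ t := hb.trans (Nat.le_self_pow ht0.ne' b)
  have hdvd : s ^ 2 ∣ b ^ t - 1 := by
    have h1 : b ^ t ≡ 1 [MOD s ^ 2] := Nat.ModEq.pow_totient (hsb.pow_right 2)
    exact (Nat.modEq_iff_dvd' (by omega)).1 h1.symm
  have hcast : ((b ^ t - 1 : ℕ) : ℤ) = ((b : ℤ) ^ t) - 1 := by
    rw [Nat.cast_sub (by omega)]; push_cast; ring
  refine ⟨b ^ t - 1, by omega, fun q hq hqs z => ?_⟩
  have hBB : (2 : ℤ) ≤ (b : ℤ) ^ t := by exact_mod_cast hB2
  obtain ⟨k, hk⟩ := cover (s := s) (B := (b : ℤ) ^ t) hBB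
    (by
      intro p _ hps
      rw [← hcast]
      exact Int.natCast_dvd_natCast.2 ((hps.trans (dvd_pow_self s two_ne_zero)).trans hdvd))
    (by
      intro h2
      rw [← hcast]
      have : 4 ∣ s ^ 2 := by
        obtain ⟨u, rfl⟩ := h2
        exact ⟨u ^ 2, by ring⟩
      exact_mod_cast this.trans hdvd) hq hqs z
  have hbq : Nat.Coprime b q := by
    rw [Nat.coprime_iff_gcd_eq_one]
    by_contra hne
    obtain ⟨p, hp, hpd⟩ := Nat.exists_prime_and_dvd hne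
    have h1 : p ∣ b := hpd.trans (Nat.gcd_dvd_left _ _)
    have h2 : p ∣ s := hqs p hp (hpd.trans (Nat.gcd_dvd_right _ _))
    exact (Nat.Prime.not_coprime_iff_dvd.2 ⟨p, hp, h1, h2⟩) hsb
  have hφ0 : 0 < Nat.totient q := Nat.totient_pos.2 hq
  refine ⟨(t * k) % Nat.totient q, (Nat.mod_lt _ hφ0).trans_le (Nat.totient_le q), ?_⟩
  have h1 : b ^ ((t * k) % Nat.totient q) ≡ b ^ (t * k) [MOD q] := by
    conv_rhs => rw [← Nat.div_add_mod (t * k) (Nat.totient q), pow_add, pow_mul]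
    have h2 : (b ^ Nat.totient q) ^ (t * k / Nat.totient q) ≡ 1 [MOD q] := by
      have := (Nat.ModEq.pow_totient hbq).pow (t * k / Nat.totient q)
      rwa [one_pow] at this
    have h3 := (h2.mul_right (b ^ ((t * k) % Nat.totient q))).symm
    rwa [one_mul] at h3
  have h2 : (q : ℤ) ∣ (b : ℤ) ^ (t * k) - (b : ℤ) ^ ((t * k) % Nat.totient q) := by
    have := Nat.modEq_iff_dvd.1 h1
    exact_mod_cast this
  rw [hcast]
  have h3 : (b : ℤ) ^ ((t * k) % Nat.totient q) - (1 + ((b : ℤ) ^ t - 1) * z) =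
      ((b : ℤ) ^ t) ^ k - (1 + ((b : ℤ) ^ t - 1) * z) -
        ((b : ℤ) ^ (t * k) - (b : ℤ) ^ ((t * k) % Nat.totient q)) := by
    rw [← pow_mul]; ring
  rw [h3]
  exact dvd_sub hk h2


/-- `a = u v` with `v` coprime to `b` and `u` a divisor of a power of `b` -/
theorem split (b : ℕ) : ∀ n a : ℕ, 0 < a → a ≤ n → ∃ u v e : ℕ, a = u * v ∧ Nat.Coprime b v ∧
    u ∣ b ^ e := by
  intro n
  induction n with
  | zero => intro a ha h; omega
  | succ n ih =>
    intro a ha h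
    by_cases hg : Nat.gcd a b = 1
    · exact ⟨1, a, 0, by simp, (Nat.coprime_comm.1 hg), by simp⟩
    · obtain ⟨a', ha'⟩ := Nat.gcd_dvd_left a b
      have hg0 : 0 < Nat.gcd a b := Nat.gcd_pos_of_pos_left b ha
      have hg2 : 2 ≤ Nat.gcd a b := by omega
      have ha'0 : 0 < a' := by
        rcases Nat.eq_zero_or_pos a' with h0 | h0
        · rw [h0, mul_zero] at ha'; omega
        · exact h0
      have hlt : a' < a := by
        calc a' < 2 * a' := by omega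
          _ ≤ Nat.gcd a b * a' := Nat.mul_le_mul_right _ hg2
          _ = a := ha'.symm
      obtain ⟨u, v, e, h1, h2, h3⟩ := ih a' ha'0 (by omega)
      refine ⟨Nat.gcd a b * u, v, e + 1, ?_, h2, ?_⟩
      · rw [mul_assoc, ← h1]; exact ha'
      · rw [pow_succ, mul_comm (b ^ e) b]
        exact mul_dvd_mul (Nat.gcd_dvd_right a b) h3

/-- Lemma W -/
theorem lemW (u v : ℤ) (hv : 2 ≤ v) (huv : IsCoprime u v) (c ρ K : ℕ) (hc : 1 ≤ c) :
    ∀ n : ℕ, n ≤ K → ∃ w : ℤ, ∀ k : ℕ, c ≤ k → k < n → k % c = ρ →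
      ∃ N r : ℤ, u ^ (K - k) * w = N * v ^ (k + 1) + r ∧ v ^ (k + 1 - c) ≤ r ∧
        r < 2 * v ^ (k + 1 - c) := by
  intro n
  induction n with
  | zero => intro _; exact ⟨0, fun k _ h2 _ => by omega⟩
  | succ n ih =>
    intro hn
    obtain ⟨w, hw⟩ := ih (by omega)
    by_cases hcase : c ≤ n ∧ n % c = ρ
    · obtain ⟨hcn, hnρ⟩ := hcase
      have hvpos : 0 < v := by omega
      have hpp : (0 : ℤ) < v ^ (n + 1 - c) := pow_pos hvpos _
      have hco : IsCoprime (u ^ (K - n)) (v ^ c) := IsCoprime.pow huv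
      obtain ⟨x, y, hxy⟩ := hco
      set Q := (u ^ (K - n) * w) / v ^ (n + 1 - c) with hQ
      set ρ0 := (u ^ (K - n) * w) % v ^ (n + 1 - c) with hρ0
      have hdiv : v ^ (n + 1 - c) * Q + ρ0 = u ^ (K - n) * w := Int.mul_ediv_add_emod _ _
      have hρ0n : 0 ≤ ρ0 := Int.emod_nonneg _ hpp.ne'
      have hρ0l : ρ0 < v ^ (n + 1 - c) := Int.emod_lt_of_pos _ hpp
      refine ⟨w + (x * (1 - Q)) * v ^ (n + 1 - c), ?_⟩
      intro k hck hkn hkρ
      rcases Nat.lt_or_ge k n with hlt | hge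
      · obtain ⟨N, r, h1, h2, h3⟩ := hw k hck hlt hkρ
        have hdist : k + 1 + (n - c - k) = n + 1 - c := by
          have hmod : (n - k) % c = 0 := by
            have : k ≡ n [MOD c] := by rw [Nat.ModEq, hkρ, hnρ]
            exact Nat.mod_eq_zero_of_dvd ((Nat.modEq_iff_dvd' hlt.le).1 this)
          have hge2 : c ≤ n - k := by
            obtain ⟨q, hq⟩ := Nat.dvd_of_mod_eq_zero hmod
            rcases Nat.eq_zero_or_pos q with h0 | h0
            · rw [h0, mul_zero] at hq; omega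
            · calc c = c * 1 := (mul_one c).symm
                _ ≤ c * q := Nat.mul_le_mul_left _ h0
                _ = n - k := hq.symm
          omega
        refine ⟨N + u ^ (K - k) * (x * (1 - Q)) * v ^ (n - c - k), r, ?_, h2, h3⟩
        rw [mul_add, h1, ← hdist, pow_add]
        ring
      · have hkn' : k = n := by omega
        subst hkn'
        refine ⟨-(y * (1 - Q)), v ^ (k + 1 - c) + ρ0, ?_, by linarith, by linarith⟩
        have hpow : v ^ (k + 1) = v ^ c * v ^ (k + 1 - c) := by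
          rw [← pow_add]; congr 1; omega
        rw [mul_add, ← hdiv, hpow]
        have e : u ^ (K - k) * x = 1 - y * v ^ c := by linear_combination hxy
        linear_combination ((1 - Q) * v ^ (k + 1 - c)) * e
    · refine ⟨w, fun k hck hkn hkρ => ?_⟩
      rcases Nat.lt_or_ge k n with hlt | hge
      · exact hw k hck hlt hkρ
      · have hkn' : k = n := by omega
        subst hkn'
        exact (hcase ⟨hck, hkρ⟩).elim

end Pool.Agent.R191.FD.Ar

namespace Pool.Agent.R191.FD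

open Pool.Agent.R191.FD.Ar

theorem arith : ArithStatement := by
  intro a b ha hb ⟨p, hp, hpa, hpb⟩
  obtain ⟨u, v, e, hauv, hbv, hub⟩ := split b a a (by omega) le_rfl
  have hu0 : 0 < u := by
    rcases Nat.eq_zero_or_pos u with h0 | h0
    · rw [h0, zero_mul] at hauv; omega
    · exact h0
  have hv0 : 0 < v := by
    rcases Nat.eq_zero_or_pos v with h0 | h0
    · rw [h0, mul_zero] at hauv; omega
    · exact h0
  have hpv : p ∣ v := by
    rw [hauv] at hpa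
    rcases (hp.dvd_mul).1 hpa with h | h
    · exact (hpb (hp.dvd_of_dvd_pow (h.trans hub))).elim
    · exact h
  have hv2 : 2 ≤ v := hp.two_le.trans (Nat.le_of_dvd hv0 hpv)
  obtain ⟨D, hD1, hD⟩ := cover' hb (by omega : 1 ≤ v) hbv
  refine ⟨v, D, hv2, hD1, fun c ρ K hc => ?_⟩
  have huv : IsCoprime (u : ℤ) (v : ℤ) := by
    have h1 : Nat.Coprime (b ^ e) v := Nat.Coprime.pow_left e hbv
    have h2 : Nat.Coprime u v := Nat.Coprime.coprime_dvd_left hub h1
    exact Nat.isCoprime_iff_coprime.2 h2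
  obtain ⟨w, hw⟩ := lemW (u : ℤ) (v : ℤ) (by exact_mod_cast hv2) huv c ρ K hc K le_rfl
  -- `b ^ m0 = u ^ (K+1) g`
  obtain ⟨g, hg⟩ : u ^ (K + 1) ∣ b ^ (e * (K + 1)) := by
    rw [pow_mul]; exact pow_dvd_pow_of_dvd hub _
  have hgv : IsCoprime (g : ℤ) ((v : ℤ) ^ (K + 1)) := by
    have h1 : Nat.Coprime (b ^ (e * (K + 1))) v := Nat.Coprime.pow_left _ hbv
    have h2 : Nat.Coprime g v := Nat.Coprime.coprime_dvd_left ⟨u ^ (K + 1), by rw [hg]; ring⟩ h1
    exact (Nat.isCoprime_iff_coprime.2 h2).pow_right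
  obtain ⟨x, y, hxy⟩ := hgv
  have hq1 : 1 ≤ v ^ (K + 1) := Nat.pow_pos hv0
  have hqs : ∀ l : ℕ, l.Prime → l ∣ v ^ (K + 1) → l ∣ v := fun l hl h => hl.dvd_of_dvd_pow h
  choose j hjlt hj using fun r : ℕ => hD (v ^ (K + 1)) hq1 hqs ((r : ℤ) * (x * w))
  choose! N R hNR using hw
  refine ⟨fun r => e * (K + 1) + j r, fun k => (R k : ℝ) / (v : ℝ) ^ (k + 1), ?_⟩
  intro k hck hkK hkρ
  obtain ⟨h1, h2, h3⟩ := hNR k hck hkK hkρ
  have hvR : (0 : ℝ) < (v : ℝ) := by exact_mod_cast hv0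
  have huR : (0 : ℝ) < (u : ℝ) := by exact_mod_cast hu0
  have hpow : (v : ℝ) ^ (k + 1) = (v : ℝ) ^ c * (v : ℝ) ^ (k + 1 - c) := by
    rw [← pow_add]; congr 1; omega
  have h2R : (v : ℝ) ^ (k + 1 - c) ≤ (R k : ℝ) := by exact_mod_cast h2
  have h3R : (R k : ℝ) ≤ 2 * (v : ℝ) ^ (k + 1 - c) := by exact_mod_cast h3.le
  refine ⟨?_, ?_, ?_⟩
  · rw [div_le_div_iff₀ (by positivity) (by positivity), one_mul, hpow, mul_comm (R k : ℝ)]
    exact mul_le_mul_of_nonneg_left h2R (by positivity)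
  · rw [div_le_div_iff₀ (by positivity) (by positivity), hpow]
    calc (R k : ℝ) * (v : ℝ) ^ c ≤ (2 * (v : ℝ) ^ (k + 1 - c)) * (v : ℝ) ^ c :=
          mul_le_mul_of_nonneg_right h3R (by positivity)
      _ = 2 * ((v : ℝ) ^ c * (v : ℝ) ^ (k + 1 - c)) := by ring
  · intro r s
    obtain ⟨qr, hqr⟩ := hj r
    obtain ⟨qs, hqs'⟩ := hj s
    push_cast at hqr hqs'
    refine ⟨(D : ℤ) * ((r : ℤ) - s) * N k + (u : ℤ) ^ (K - k) * (v : ℤ) ^ (K - k) *
      ((g : ℤ) * (qr - qs) - (D : ℤ) * ((r : ℤ) - s) * (y * w)), ?_⟩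
    have hgI : ((b : ℤ)) ^ (e * (K + 1)) = (u : ℤ) ^ (K + 1) * g := by exact_mod_cast hg
    have hdiff : (b : ℤ) ^ (e * (K + 1) + j r) - (b : ℤ) ^ (e * (K + 1) + j s) =
        (u : ℤ) ^ (K + 1) * ((D : ℤ) * ((r : ℤ) - s) * w + (v : ℤ) ^ (K + 1) *
          ((g : ℤ) * (qr - qs) - (D : ℤ) * ((r : ℤ) - s) * (y * w))) := by
      rw [pow_add, pow_add, hgI]
      linear_combination ((u : ℤ) ^ (K + 1) * g) * hqr - ((u : ℤ) ^ (K + 1) * g) * hqs' +
        (u : ℤ) ^ (K + 1) * ((D : ℤ) * ((r : ℤ) - s) * w) * hxy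
    have hdiffR : (b : ℝ) ^ (e * (K + 1) + j r) - (b : ℝ) ^ (e * (K + 1) + j s) =
        (u : ℝ) ^ (K + 1) * ((D : ℝ) * ((r : ℝ) - s) * w + (v : ℝ) ^ (K + 1) *
          ((g : ℝ) * (qr - qs) - (D : ℝ) * ((r : ℝ) - s) * (y * w))) := by
      exact_mod_cast hdiff
    have haR : (a : ℝ) = u * v := by exact_mod_cast hauv
    have h1R : (u : ℝ) ^ (K - k) * w = N k * (v : ℝ) ^ (k + 1) + R k := by exact_mod_cast h1
    have hu' : (u : ℝ) ^ (K + 1) = (u : ℝ) ^ (K - k) * (u : ℝ) ^ (k + 1) := by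
      rw [← pow_add]; congr 1; omega
    have hv' : (v : ℝ) ^ (K + 1) = (v : ℝ) ^ (K - k) * (v : ℝ) ^ (k + 1) := by
      rw [← pow_add]; congr 1; omega
    have hune : (u : ℝ) ^ (k + 1) ≠ 0 := by positivity
    have hvne : (v : ℝ) ^ (k + 1) ≠ 0 := by positivity
    simp only
    rw [hdiffR, haR, mul_pow, div_eq_iff (mul_ne_zero hune hvne)]
    push_cast
    rw [hu', hv']
    have hexp : (D : ℝ) * ((r : ℝ) - s) * ((R k : ℝ) / (v : ℝ) ^ (k + 1)) *
        ((u : ℝ) ^ (k + 1) * (v : ℝ) ^ (k + 1)) =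
        (D : ℝ) * ((r : ℝ) - s) * (R k : ℝ) * (u : ℝ) ^ (k + 1) := by
      field_simp
    rw [add_mul, hexp]
    linear_combination ((D : ℝ) * ((r : ℝ) - s) * (u : ℝ) ^ (k + 1)) * h1R

end Pool.Agent.R191.FD
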