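import Pool.Agent.R191.FD.Defs

/-!
# FD Part D: density of the orbit from small averages
-/

set_option autoImplicit false

namespace Pool.Agent.R191.FD

open MeasureTheory ProbabilityTheory Filter Topology Set

namespace AvgAux

theorem e_add (s t : ℝ) : e (s + t) = e s * e t := by
  unfold e
  rw [← Complex.exp_add]
  congr 1
  push_cast
  ring

theorem e_zero : e 0 = 1 := by
  unfold e
  simp

theorem norm_e (t : ℝ) : ‖e t‖ = 1 := Complex.norm_exp_ofReal_mul_I _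

theorem e_nat (n : ℕ) (t : ℝ) : e t ^ n = e (n * t) := by
  unfold e
  rw [← Complex.exp_nat_mul]
  congr 1
  push_cast
  ring

theorem e_cont : Continuous e := by
  unfold e
  fun_prop

theorem norm_one_add (s : ℝ) : ‖e s + 1‖ ^ 2 = 2 + 2 * Real.cos (2 * Real.pi * s) := by
  rw [← Complex.normSq_eq_norm_sq, Complex.normSq_apply]
  have h1 : (e s + 1).re = Real.cos (2 * Real.pi * s) + 1 := by
    unfold e
    rw [Complex.add_re, Complex.exp_ofReal_mul_I_re, Complex.one_re]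
  have h2 : (e s + 1).im = Real.sin (2 * Real.pi * s) := by
    unfold e
    rw [Complex.add_im, Complex.exp_ofReal_mul_I_im, Complex.one_im, add_zero]
  rw [h1, h2]
  nlinarith [Real.sin_sq_add_cos_sq (2 * Real.pi * s)]

theorem cos_le {s δ : ℝ} (hδ0 : 0 ≤ δ) (h : ∀ N : ℤ, δ ≤ |s - N|) :
    Real.cos (2 * Real.pi * s) ≤ Real.cos (2 * Real.pi * δ) := by
  have hpi := Real.pi_pos
  have h1 := abs_sub_round s
  have h2 := h (round s)
  have e1 : Real.cos (2 * Real.pi * s) = Real.cos (2 * Real.pi * |s - round s|) := by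
    have e2 : 2 * Real.pi * |s - round s| = |2 * Real.pi * s - (round s : ℤ) * (2 * Real.pi)| := by
      have : 2 * Real.pi * s - (round s : ℤ) * (2 * Real.pi) = 2 * Real.pi * (s - round s) := by
        ring
      rw [this, abs_mul, abs_of_pos (by positivity : (0 : ℝ) < 2 * Real.pi)]
    rw [e2, Real.cos_abs, Real.cos_sub_int_mul_two_pi]
  rw [e1]
  apply Real.cos_le_cos_of_nonneg_of_le_pi
  · positivity
  · nlinarith
  · exact mul_le_mul_of_nonneg_left h2 (by positivity)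

/-- the kernel -/
theorem kernel (N : ℕ) (s : ℝ) :
    ∑ j ∈ Finset.range (2 * N + 1), ((2 * N).choose j : ℂ) * e (((j : ℤ) - (N : ℤ) : ℤ) * s) =
      e (-(N * s)) * (e s + 1) ^ (2 * N) := by
  rw [add_pow, Finset.mul_sum]
  refine Finset.sum_congr rfl fun j _ => ?_
  rw [one_pow, mul_one, e_nat]
  have e1 : (((j : ℤ) - (N : ℤ) : ℤ) : ℝ) * s = -(N * s) + j * s := by
    push_cast
    ring
  rw [e1, e_add]
  ring

theorem kernel_norm (N : ℕ) (s θ : ℝ) (hθ : ‖e s + 1‖ ^ 2 ≤ 4 * θ) :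
    ‖∑ j ∈ Finset.range (2 * N + 1), ((2 * N).choose j : ℂ) *
      e (((j : ℤ) - (N : ℤ) : ℤ) * s)‖ ≤ 4 ^ N * θ ^ N := by
  rw [kernel, norm_mul, norm_e, one_mul, norm_pow, pow_mul, ← mul_pow]
  exact pow_le_pow_left₀ (by positivity) hθ N

/-- the average -/
noncomputable def Av (b R : ℕ) (m : ℕ → ℕ) (h : ℤ) (x : ℝ) : ℂ :=
  (R : ℂ)⁻¹ * ∑ r ∈ Finset.range R, e (h * (b : ℝ) ^ m r * x)

theorem Av_zero (b R : ℕ) (m : ℕ → ℕ) (hR : 1 ≤ R) (x : ℝ) : Av b R m 0 x = 1 := by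
  unfold Av
  have h1 : ∀ r : ℕ, e ((0 : ℤ) * (b : ℝ) ^ m r * x) = 1 := by
    intro r
    rw [Int.cast_zero, zero_mul, zero_mul, e_zero]
  simp only [h1, Finset.sum_const, Finset.card_range, nsmul_eq_mul, mul_one]
  have : (R : ℂ) ≠ 0 := by
    have : R ≠ 0 := by omega
    exact_mod_cast this
  exact inv_mul_cancel₀ this

theorem Av_cont (b R : ℕ) (m : ℕ → ℕ) (h : ℤ) : Continuous (Av b R m h) := by
  unfold Av
  refine continuous_const.mul (continuous_finsetSum _ fun r _ => ?_)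
  exact e_cont.comp (continuous_const.mul continuous_id)

theorem Av_norm (b R : ℕ) (m : ℕ → ℕ) (h : ℤ) (x : ℝ) : ‖Av b R m h x‖ ≤ 1 := by
  unfold Av
  rw [norm_mul, norm_inv, Complex.norm_natCast]
  have h1 : ‖∑ r ∈ Finset.range R, e (h * (b : ℝ) ^ m r * x)‖ ≤ R := by
    refine (norm_sum_le _ _).trans ?_
    simp [norm_e]
  rcases Nat.eq_zero_or_pos R with hR | hR
  · simp [hR]
  · have : (0 : ℝ) < R := by exact_mod_cast hR
    rw [inv_mul_le_iff₀ this, mul_one]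
    exact h1

/-- averaging the kernel -/
theorem expand (b R N : ℕ) (m : ℕ → ℕ) (x y : ℝ) :
    (R : ℂ)⁻¹ * ∑ r ∈ Finset.range R, ∑ j ∈ Finset.range (2 * N + 1), ((2 * N).choose j : ℂ) *
      e (((j : ℤ) - (N : ℤ) : ℤ) * ((b : ℝ) ^ m r * x - y)) =
    ∑ j ∈ Finset.range (2 * N + 1), ((2 * N).choose j : ℂ) *
      (e (-(((j : ℤ) - (N : ℤ) : ℤ) * y)) * Av b R m ((j : ℤ) - (N : ℤ)) x) := by
  rw [Finset.sum_comm, Finset.mul_sum]
  refine Finset.sum_congr rfl fun j _ => ?_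
  unfold Av
  rw [← Finset.mul_sum]
  have h1 : ∀ r, e (((j : ℤ) - (N : ℤ) : ℤ) * ((b : ℝ) ^ m r * x - y)) =
      e (-(((j : ℤ) - (N : ℤ) : ℤ) * y)) *
        e (((j : ℤ) - (N : ℤ) : ℤ) * (b : ℝ) ^ m r * x) := by
    intro r
    rw [← e_add]
    congr 1
    ring
  simp only [h1]
  rw [← Finset.mul_sum]
  ring

/-- if the orbit avoids a neighbourhood of `y`, some average is large -/
theorem large (b R N : ℕ) (m : ℕ → ℕ) (hR : 1 ≤ R) (x y δ θ : ℝ) (hδ : 0 ≤ δ)
    (hθ : 2 + 2 * Real.cos (2 * Real.pi * δ) = 4 * θ)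
    (hx : ∀ (n : ℕ) (M : ℤ), δ ≤ |(b : ℝ) ^ n * x - y - M|)
    (hγ : θ ^ N < ((2 * N).choose N : ℝ) / 4 ^ N) :
    ∃ h : ℤ, h ≠ 0 ∧ |h| ≤ N ∧ ((2 * N).choose N : ℝ) / 4 ^ N - θ ^ N ≤ ‖Av b R m h x‖ := by
  by_contra hcon
  push Not at hcon
  set c0 : ℝ := ((2 * N).choose N : ℝ) / 4 ^ N with hc0
  have hc0p : 0 < c0 := by
    rw [hc0]
    have : 0 < (2 * N).choose N := Nat.choose_pos (by omega)
    have : (0 : ℝ) < (2 * N).choose N := by exact_mod_cast this
    positivity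
  -- upper bound of the averaged kernel
  have hU : ‖(R : ℂ)⁻¹ * ∑ r ∈ Finset.range R, ∑ j ∈ Finset.range (2 * N + 1),
      ((2 * N).choose j : ℂ) * e (((j : ℤ) - (N : ℤ) : ℤ) * ((b : ℝ) ^ m r * x - y))‖ ≤
      4 ^ N * θ ^ N := by
    rw [norm_mul, norm_inv, Complex.norm_natCast]
    have hRp : (0 : ℝ) < R := by exact_mod_cast hR
    rw [inv_mul_le_iff₀ hRp]
    refine (norm_sum_le _ _).trans ?_
    calc ∑ r ∈ Finset.range R, ‖∑ j ∈ Finset.range (2 * N + 1),
        ((2 * N).choose j : ℂ) * e (((j : ℤ) - (N : ℤ) : ℤ) * ((b : ℝ) ^ m r * x - y))‖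
        ≤ ∑ r ∈ Finset.range R, 4 ^ N * θ ^ N := by
          refine Finset.sum_le_sum fun r _ => kernel_norm N _ θ ?_
          rw [norm_one_add, ← hθ]
          have := cos_le hδ (hx (m r))
          linarith
      _ = R * (4 ^ N * θ ^ N) := by rw [Finset.sum_const, Finset.card_range, nsmul_eq_mul]
  rw [expand] at hU
  have hmem : N ∈ Finset.range (2 * N + 1) := Finset.mem_range.2 (by omega)
  rw [← Finset.add_sum_erase _ _ hmem] at hU
  have hN0 : ((2 * N).choose N : ℂ) *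
      (e (-(((N : ℤ) - (N : ℤ) : ℤ) * y)) * Av b R m ((N : ℤ) - (N : ℤ)) x) =
      ((2 * N).choose N : ℂ) := by
    rw [sub_self, Av_zero b R m hR, Int.cast_zero, zero_mul, neg_zero, e_zero, mul_one, mul_one]
  rw [hN0] at hU
  set T : ℂ := ∑ j ∈ (Finset.range (2 * N + 1)).erase N, ((2 * N).choose j : ℂ) *
      (e (-(((j : ℤ) - (N : ℤ) : ℤ) * y)) * Av b R m ((j : ℤ) - (N : ℤ)) x) with hT
  have hTn : ‖T‖ ≤ (4 ^ N - (2 * N).choose N) * (c0 - θ ^ N) := by
    rw [hT]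
    refine (norm_sum_le _ _).trans ?_
    calc ∑ j ∈ (Finset.range (2 * N + 1)).erase N, ‖((2 * N).choose j : ℂ) *
        (e (-(((j : ℤ) - (N : ℤ) : ℤ) * y)) * Av b R m ((j : ℤ) - (N : ℤ)) x)‖
        ≤ ∑ j ∈ (Finset.range (2 * N + 1)).erase N, ((2 * N).choose j : ℝ) * (c0 - θ ^ N) := by
          refine Finset.sum_le_sum fun j hj => ?_
          rw [norm_mul, norm_mul, norm_e, one_mul, Complex.norm_natCast]
          refine mul_le_mul_of_nonneg_left ?_ (Nat.cast_nonneg _)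
          have hj1 := Finset.ne_of_mem_erase hj
          have hj2 := Finset.mem_range.1 (Finset.mem_of_mem_erase hj)
          refine le_of_lt (hcon _ ?_ ?_)
          · intro h0
            apply hj1
            omega
          · rw [abs_le]
            constructor <;> omega
      _ = (4 ^ N - (2 * N).choose N) * (c0 - θ ^ N) := by
          rw [← Finset.sum_mul]
          congr 1
          have h1 := Nat.sum_range_choose (2 * N)
          have h2 : (∑ j ∈ Finset.range (2 * N + 1), ((2 * N).choose j : ℝ)) = 4 ^ N := by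
            have : ((∑ j ∈ Finset.range (2 * N + 1), (2 * N).choose j : ℕ) : ℝ) =
                ((2 ^ (2 * N) : ℕ) : ℝ) := by rw [h1]
            push_cast at this
            rw [this, pow_mul]
            norm_num
          rw [← Finset.add_sum_erase _ _ hmem] at h2
          linarith
  have h3 : ((2 * N).choose N : ℝ) ≤ 4 ^ N * θ ^ N + ‖T‖ := by
    have h4 : ((2 * N).choose N : ℂ) = (((2 * N).choose N : ℂ) + T) - T := by ring
    have h5 : ((2 * N).choose N : ℝ) = ‖((2 * N).choose N : ℂ)‖ := by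
      rw [Complex.norm_natCast]
    rw [h5, h4]
    exact (norm_sub_le _ _).trans (add_le_add hU le_rfl)
  have h4N : (0 : ℝ) < 4 ^ N := by positivity
  have h6 : ((2 * N).choose N : ℝ) = c0 * 4 ^ N := by
    rw [hc0]
    field_simp
  rw [h6] at h3 hTn
  have h7 : 0 < c0 - θ ^ N := by linarith
  nlinarith [mul_pos (mul_pos hc0p h4N) h7]

/-- the exceptional sets are null -/
theorem null {Ω : Type} [MeasurableSpace Ω] (P : Measure Ω) [IsProbabilityMeasure P] (x : Ω → ℝ)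
    (hx : Measurable x) (b : ℕ)
    (hyp : ∀ (H : ℕ) (ε : ℝ), 0 < ε → ∃ (R : ℕ) (m : ℕ → ℕ), 1 ≤ R ∧
      ∀ h : ℤ, h ≠ 0 → |h| ≤ H →
        ∫ ω, ‖(R : ℂ)⁻¹ * ∑ r ∈ Finset.range R, e (h * (b : ℝ) ^ m r * x ω)‖ ^ 2 ∂P ≤ ε)
    (y δ : ℝ) (hδ : 0 < δ) (hδ2 : δ ≤ 1 / 2) :
    P {ω | ∀ (n : ℕ) (M : ℤ), δ ≤ |(b : ℝ) ^ n * x ω - y - M|} = 0 := by
  have hpi := Real.pi_pos
  set θ : ℝ := (1 + Real.cos (2 * Real.pi * δ)) / 2 with hθ
  have hθ0 : 0 ≤ θ := by
    have := Real.neg_one_le_cos (2 * Real.pi * δ)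
    rw [hθ]
    linarith
  have hθ1 : θ < 1 := by
    have : Real.cos (2 * Real.pi * δ) < Real.cos 0 := by
      apply Real.cos_lt_cos_of_nonneg_of_le_pi le_rfl
      · nlinarith
      · positivity
    rw [Real.cos_zero] at this
    rw [hθ]
    linarith
  -- choice of N
  obtain ⟨N, hN1, hN⟩ : ∃ N : ℕ, 1 ≤ N ∧ θ ^ N < ((2 * N).choose N : ℝ) / 4 ^ N := by
    have ht := tendsto_self_mul_const_pow_of_lt_one hθ0 hθ1
    have h1 : ∀ᶠ n : ℕ in atTop, (n : ℝ) * θ ^ n < 1 / 2 :=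
      ht.eventually (gt_mem_nhds (by norm_num))
    obtain ⟨N, hN, hN1⟩ := (h1.and (eventually_ge_atTop 1)).exists
    refine ⟨N, hN1, ?_⟩
    have h2 := Nat.four_pow_le_two_mul_self_mul_centralBinom N hN1
    rw [Nat.centralBinom] at h2
    have h3 : (4 : ℝ) ^ N ≤ 2 * N * ((2 * N).choose N : ℝ) := by exact_mod_cast h2
    rw [lt_div_iff₀ (by positivity)]
    have hNp : (1 : ℝ) ≤ N := by exact_mod_cast hN1
    have hch : (0 : ℝ) < (2 * N).choose N := by
      have : 0 < (2 * N).choose N := Nat.choose_pos (by omega)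
      exact_mod_cast this
    have hθN : 0 ≤ θ ^ N := by positivity
    calc θ ^ N * 4 ^ N ≤ θ ^ N * (2 * N * ((2 * N).choose N : ℝ)) :=
          mul_le_mul_of_nonneg_left h3 hθN
      _ = 2 * (N * θ ^ N) * ((2 * N).choose N : ℝ) := by ring
      _ < 1 * ((2 * N).choose N : ℝ) := by
          refine mul_lt_mul_of_pos_right ?_ hch
          linarith
      _ = _ := one_mul _
  set γ : ℝ := ((2 * N).choose N : ℝ) / 4 ^ N - θ ^ N with hγ
  have hγ0 : 0 < γ := by linarith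
  set E : Set Ω := {ω | ∀ (n : ℕ) (M : ℤ), δ ≤ |(b : ℝ) ^ n * x ω - y - M|} with hE
  have hb : ∀ ε : ℝ, 0 < ε → P.real E ≤ ((2 * N + 1 : ℕ) : ℝ) * (ε / γ ^ 2) := by
    intro ε hε
    obtain ⟨R, m, hR, hm⟩ := hyp N ε hε
    set I : Finset ℤ := (Finset.Icc (-(N : ℤ)) N).erase 0 with hI
    have hsub : E ⊆ ⋃ h ∈ I, {ω | γ ^ 2 ≤ ‖Av b R m h (x ω)‖ ^ 2} := by
      intro ω hω
      obtain ⟨h, h1, h2, h3⟩ := large b R N m hR (x ω) y δ θ hδ.le
        (by rw [hθ]; ring) hω hN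
      simp only [mem_iUnion]
      refine ⟨h, ?_, pow_le_pow_left₀ hγ0.le h3 2⟩
      rw [hI, Finset.mem_erase, Finset.mem_Icc]
      rw [abs_le] at h2
      exact ⟨h1, h2⟩
    have hone : ∀ h ∈ I, P.real {ω | γ ^ 2 ≤ ‖Av b R m h (x ω)‖ ^ 2} ≤ ε / γ ^ 2 := by
      intro h hh
      rw [hI, Finset.mem_erase, Finset.mem_Icc] at hh
      have hmeas : Measurable fun ω => ‖Av b R m h (x ω)‖ ^ 2 :=
        (((Av_cont b R m h).measurable.comp hx).norm).pow_const 2
      have hint : Integrable (fun ω => ‖Av b R m h (x ω)‖ ^ 2) P := by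
        refine Integrable.of_bound hmeas.aestronglyMeasurable 1 (Eventually.of_forall fun ω => ?_)
        rw [Real.norm_of_nonneg (sq_nonneg _)]
        exact pow_le_one₀ (norm_nonneg _) (Av_norm b R m h (x ω))
      have h4 := mul_meas_ge_le_integral_of_nonneg
        (Eventually.of_forall fun ω => sq_nonneg _) hint (γ ^ 2)
      have h5 : ∫ ω, ‖Av b R m h (x ω)‖ ^ 2 ∂P ≤ ε := hm h hh.1 (abs_le.2 hh.2)
      rw [le_div_iff₀ (by positivity), mul_comm]
      exact h4.trans h5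
    calc P.real E ≤ P.real (⋃ h ∈ I, {ω | γ ^ 2 ≤ ‖Av b R m h (x ω)‖ ^ 2}) :=
          measureReal_mono hsub (measure_ne_top P _)
      _ ≤ ∑ h ∈ I, P.real {ω | γ ^ 2 ≤ ‖Av b R m h (x ω)‖ ^ 2} :=
          measureReal_biUnion_finset_le I _
      _ ≤ ∑ h ∈ I, ε / γ ^ 2 := Finset.sum_le_sum hone
      _ = (I.card : ℝ) * (ε / γ ^ 2) := by rw [Finset.sum_const, nsmul_eq_mul]
      _ ≤ ((2 * N + 1 : ℕ) : ℝ) * (ε / γ ^ 2) := by
          refine mul_le_mul_of_nonneg_right ?_ (by positivity)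
          have h6 : I.card ≤ (Finset.Icc (-(N : ℤ)) N).card := Finset.card_erase_le
          rw [Int.card_Icc] at h6
          have h7 : ((N : ℤ) + 1 - -(N : ℤ)).toNat = 2 * N + 1 := by omega
          rw [h7] at h6
          exact_mod_cast h6
  have h0 : P.real E ≤ 0 := by
    refine le_of_forall_pos_le_add fun κ hκ => ?_
    have h1 := hb (κ * γ ^ 2 / ((2 * N + 1 : ℕ) : ℝ)) (by positivity)
    have h2 : ((2 * N + 1 : ℕ) : ℝ) * (κ * γ ^ 2 / ((2 * N + 1 : ℕ) : ℝ) / γ ^ 2) = κ := by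
      have : ((2 * N + 1 : ℕ) : ℝ) ≠ 0 := by positivity
      field_simp
    rw [h2] at h1
    linarith
  have h1 : P.real E = 0 := le_antisymm h0 measureReal_nonneg
  exact (measureReal_eq_zero_iff).1 h1

end AvgAux

open AvgAux in
theorem avg : AvgStatement := by
  intro Ω _ P _ x hx b hyp
  have hall : ∀ᵐ ω ∂P, ∀ (y : ℚ) (k : ℕ), ∃ (n : ℕ) (M : ℤ),
      |(b : ℝ) ^ n * x ω - y - M| < 1 / ((k : ℝ) + 2) := by
    rw [ae_all_iff]
    intro y
    rw [ae_all_iff]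
    intro k
    have hk : (1 : ℝ) / ((k : ℝ) + 2) ≤ 1 / 2 := by
      apply div_le_div_of_nonneg_left (by norm_num) (by norm_num)
      have : (0 : ℝ) ≤ k := Nat.cast_nonneg k
      linarith
    have h0 := null P x hx b hyp y (1 / ((k : ℝ) + 2)) (by positivity) hk
    rw [ae_iff]
    have e1 : {ω | ¬ ∃ (n : ℕ) (M : ℤ), |(b : ℝ) ^ n * x ω - y - M| < 1 / ((k : ℝ) + 2)} =
        {ω | ∀ (n : ℕ) (M : ℤ), 1 / ((k : ℝ) + 2) ≤ |(b : ℝ) ^ n * x ω - y - M|} := by
      ext ω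
      simp only [mem_setOf_eq, not_exists, not_lt]
    rw [e1]
    exact h0
  filter_upwards [hall] with ω hω
  refine Subset.antisymm ?_ ?_
  · refine closure_minimal ?_ isClosed_Icc
    rintro _ ⟨n, rfl⟩
    exact ⟨Int.fract_nonneg _, (Int.fract_lt_one _).le⟩
  · rw [← closure_Ioo (zero_ne_one' ℝ)]
    refine closure_minimal ?_ isClosed_closure
    intro t ht
    change t ∈ closure (range fun n : ℕ => Int.fract ((b : ℝ) ^ n * x ω))
    rw [Metric.mem_closure_iff]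
    intro η hη
    set κ : ℝ := min η (min t (1 - t)) / 2 with hκ
    have hκ0 : 0 < κ := by
      have : 0 < min η (min t (1 - t)) := lt_min hη (lt_min ht.1 (by linarith [ht.2]))
      positivity
    have k1 : 2 * κ ≤ η := by
      rw [hκ]
      linarith [min_le_left η (min t (1 - t))]
    have k2 : 2 * κ ≤ t := by
      rw [hκ]
      linarith [min_le_right η (min t (1 - t)), min_le_left t (1 - t)]
    have k3 : 2 * κ ≤ 1 - t := by
      rw [hκ]
      linarith [min_le_right η (min t (1 - t)), min_le_right t (1 - t)]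
    obtain ⟨y, hy1, hy2⟩ := exists_rat_btwn (show t - κ < t + κ by linarith)
    obtain ⟨k, hk⟩ := exists_nat_one_div_lt hκ0
    obtain ⟨n, M, hnM⟩ := hω y k
    have hk2 : (1 : ℝ) / ((k : ℝ) + 2) ≤ 1 / ((k : ℝ) + 1) := by
      apply div_le_div_of_nonneg_left (by norm_num) (by positivity)
      linarith
    have h1 := abs_lt.1 hnM
    have h2 : 0 ≤ (b : ℝ) ^ n * x ω - M := by linarith
    have h3 : (b : ℝ) ^ n * x ω - M < 1 := by linarith
    have h4 : Int.fract ((b : ℝ) ^ n * x ω) = (b : ℝ) ^ n * x ω - M := by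
      rw [Int.fract_eq_iff]
      exact ⟨h2, h3, M, by ring⟩
    refine ⟨Int.fract ((b : ℝ) ^ n * x ω), ⟨n, rfl⟩, ?_⟩
    rw [h4, Real.dist_eq, abs_lt]
    constructor <;> linarith

end Pool.Agent.R191.FD
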