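import Mathlib

/-!
# Random numbers with independent digits (MP_c9a594_an)

Furstenberg's orbit closure conjecture for numbers whose base `a` digits are independent.
-/

set_option autoImplicit false

namespace Pool.Agent.R191.FD

open MeasureTheory ProbabilityTheory Filter Topology Set

/-- `exp (2 π i t)` -/
noncomputable def e (t : ℝ) : ℂ := Complex.exp (((2 * Real.pi * t : ℝ) : ℂ) * Complex.I)

/-- the number with the base `a` digits `d 0, d 1, …` after the point -/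
noncomputable def num (a : ℕ) (d : ℕ → ℕ) : ℝ := ∑' k, (d k : ℝ) / (a : ℝ) ^ (k + 1)

/-- the closure of the orbit of `x` modulo one under multiplication by `b` -/
noncomputable def orb (b : ℕ) (x : ℝ) : Set ℝ :=
  closure (range fun n : ℕ => Int.fract ((b : ℝ) ^ n * x))

/-- independent random digits (no assumption on their distributions) -/
structure Digits {Ω : Type} [MeasurableSpace Ω] (P : Measure Ω) (a : ℕ) (X : ℕ → Ω → ℕ) :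
    Prop where
  meas : ∀ k, Measurable (X k)
  indep : iIndepFun X P
  lt : ∀ k ω, X k ω < a

/-- `1 - ∑ P(X k = d)²` -/
noncomputable def eta {Ω : Type} [MeasurableSpace Ω] (P : Measure Ω) (a : ℕ) (X : ℕ → Ω → ℕ)
    (k : ℕ) : ℝ :=
  1 - ∑ d ∈ Finset.range a, (P.real {ω | X k ω = d}) ^ 2

/-- Part A -/
def ArithStatement : Prop :=
  ∀ a b : ℕ, 2 ≤ a → 2 ≤ b → (∃ p : ℕ, p.Prime ∧ p ∣ a ∧ ¬ p ∣ b) →
    ∃ v D : ℕ, 2 ≤ v ∧ 1 ≤ D ∧ ∀ c ρ K : ℕ, 1 ≤ c → ∃ (m : ℕ → ℕ) (y : ℕ → ℝ),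
      ∀ k : ℕ, c ≤ k → k < K → k % c = ρ →
        1 / (v : ℝ) ^ c ≤ y k ∧ y k ≤ 2 / (v : ℝ) ^ c ∧ ∀ r s : ℕ, ∃ M : ℤ,
          ((b : ℝ) ^ m r - (b : ℝ) ^ m s) / (a : ℝ) ^ (k + 1) = M + D * ((r : ℝ) - s) * y k

/-- Part B -/
def CharStatement : Prop :=
  ∀ (Ω : Type) [MeasurableSpace Ω] (P : Measure Ω) [IsProbabilityMeasure P] (a : ℕ)
    (_ : 2 ≤ a) (X : ℕ → Ω → ℕ) (_ : Digits P a X) (ξ δ : ℝ) (_ : 0 < δ) (_ : δ ≤ 1 / 2)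
    (F : Finset ℕ),
    (∀ k ∈ F, ∀ d d' : ℕ, d < a → d' < a → d ≠ d' → ∃ N : ℤ,
      δ ≤ |ξ * ((d : ℝ) - d') / (a : ℝ) ^ (k + 1) - N| ∧
        |ξ * ((d : ℝ) - d') / (a : ℝ) ^ (k + 1) - N| ≤ 1 / 2) →
    ‖∫ ω, e (ξ * num a (fun k => X k ω)) ∂P‖ ≤
      Real.exp (-((1 - Real.cos (2 * Real.pi * δ)) / 2) * ∑ k ∈ F, eta P a X k)

/-- Part C -/
def DivStatement : Prop :=
  ∀ (Ω : Type) [MeasurableSpace Ω] (P : Measure Ω) [IsProbabilityMeasure P] (a : ℕ)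
    (_ : 2 ≤ a) (X : ℕ → Ω → ℕ) (_ : Digits P a X),
    (∀ r : ℝ, P {ω | num a (fun k => X k ω) = r} = 0) →
    Tendsto (fun K : ℕ => ∑ k ∈ Finset.range K, eta P a X k) atTop atTop

/-- Part D -/
def AvgStatement : Prop :=
  ∀ (Ω : Type) [MeasurableSpace Ω] (P : Measure Ω) [IsProbabilityMeasure P] (x : Ω → ℝ)
    (_ : Measurable x) (b : ℕ),
    (∀ (H : ℕ) (ε : ℝ), 0 < ε → ∃ (R : ℕ) (m : ℕ → ℕ), 1 ≤ R ∧
      ∀ h : ℤ, h ≠ 0 → |h| ≤ H →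
        ∫ ω, ‖(R : ℂ)⁻¹ * ∑ r ∈ Finset.range R, e (h * (b : ℝ) ^ m r * x ω)‖ ^ 2 ∂P ≤ ε) →
    ∀ᵐ ω ∂P, orb b (x ω) = Icc 0 1

/-- Part E -/
def SparseStatement : Prop :=
  ∀ (a : ℕ) (_ : 2 ≤ a) (d : ℕ → ℕ) (_ : ∀ k, d k < a),
    (∀ L : ℕ, ∀ᶠ k in atTop, ∀ j : ℕ, k < j → j ≤ k + L → d k = 0 ∨ d j = 0) →
    dimH (orb a (num a d)) = 0

end Pool.Agent.R191.FD
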