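import Mathlib
import Pool.Agent.R191.FD.Defs

/-!
# FD Part B: Fourier transform of a number with independent digits (helper551)
-/

set_option autoImplicit false

namespace Pool.Agent.R191.FD

open MeasureTheory ProbabilityTheory Filter Topology Set

namespace CharAux

theorem e_norm (t : ℝ) : ‖e t‖ = 1 := by
  unfold e
  exact Complex.norm_exp_ofReal_mul_I _

theorem e_re (t : ℝ) : (e t).re = Real.cos (2 * Real.pi * t) := by
  unfold e
  exact Complex.exp_ofReal_mul_I_re _

theorem e_im (t : ℝ) : (e t).im = Real.sin (2 * Real.pi * t) := by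
  unfold e
  exact Complex.exp_ofReal_mul_I_im _

theorem e_cont : Continuous e := by
  unfold e
  fun_prop

theorem cos_bound {y δ : ℝ} {N : ℤ} (hδ : 0 < δ) (h1 : δ ≤ |y - N|) (h2 : |y - N| ≤ 1 / 2) :
    Real.cos (2 * Real.pi * y) ≤ Real.cos (2 * Real.pi * δ) := by
  have hpi := Real.pi_pos
  have e1 : Real.cos (2 * Real.pi * y) = Real.cos (2 * Real.pi * |y - N|) := by
    have : 2 * Real.pi * |y - N| = |2 * Real.pi * y - N * (2 * Real.pi)| := by
      rw [← abs_of_pos (by positivity : (0 : ℝ) < 2 * Real.pi), ← abs_mul,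
        abs_of_pos (by positivity : (0 : ℝ) < 2 * Real.pi)]
      congr 1; ring
    rw [this, Real.cos_abs, Real.cos_sub_int_mul_two_pi]
  rw [e1]
  apply Real.cos_le_cos_of_nonneg_of_le_pi (by positivity)
  · nlinarith
  · exact mul_le_mul_of_nonneg_left h1 (by positivity)

variable {Ω : Type} [MeasurableSpace Ω] {P : Measure Ω} [IsProbabilityMeasure P] {a : ℕ}
  {X : ℕ → Ω → ℕ}

/-- the integral of a function of one digit -/
theorem int_digit (hX : Digits P a X) (k : ℕ) (g : ℕ → ℂ) :
    ∫ ω, g (X k ω) ∂P = ∑ d ∈ Finset.range a, (P.real {ω | X k ω = d} : ℂ) * g d := by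
  have h1 : (fun ω => g (X k ω)) = fun ω => ∑ d ∈ Finset.range a,
      ({ω | X k ω = d} : Set Ω).indicator (fun _ => g d) ω := by
    funext ω
    rw [Finset.sum_eq_single (X k ω)]
    · rw [indicator_of_mem]; exact rfl
    · intro d _ hd
      rw [indicator_of_notMem]
      intro h
      exact hd h.symm
    · intro h
      exact absurd (Finset.mem_range.2 (hX.lt k ω)) h
  have hm : ∀ d, MeasurableSet {ω | X k ω = d} := fun d =>
    hX.meas k (measurableSet_singleton d)
  rw [h1, integral_finsetSum]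
  · refine Finset.sum_congr rfl fun d _ => ?_
    rw [integral_indicator_const _ (hm d), Complex.real_smul]
  · intro d _
    exact (integrable_const _).indicator (hm d)

theorem prob_sum (hX : Digits P a X) (k : ℕ) :
    ∑ d ∈ Finset.range a, P.real {ω | X k ω = d} = 1 := by
  have h := int_digit hX k (fun _ => 1)
  simp only [mul_one, integral_const, probReal_univ, one_smul] at h
  exact_mod_cast h.symm

theorem phi_bound (hX : Digits P a X) (k : ℕ) (t : ℝ) {δ : ℝ} (hδ : 0 < δ)
    (hF : ∀ d d' : ℕ, d < a → d' < a → d ≠ d' → ∃ N : ℤ,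
      δ ≤ |t * ((d : ℝ) - d') - N| ∧ |t * ((d : ℝ) - d') - N| ≤ 1 / 2) :
    ‖∫ ω, e (t * (X k ω : ℝ)) ∂P‖ ≤
      Real.exp (-((1 - Real.cos (2 * Real.pi * δ)) / 2) * eta P a X k) := by
  set c := Real.cos (2 * Real.pi * δ) with hc
  set p : ℕ → ℝ := fun d => P.real {ω | X k ω = d} with hp
  have hp0 : ∀ d, 0 ≤ p d := fun d => measureReal_nonneg
  have hp1 : ∑ d ∈ Finset.range a, p d = 1 := prob_sum hX k
  have h1 : ∫ ω, e (t * (X k ω : ℝ)) ∂P = ∑ d ∈ Finset.range a, (p d : ℂ) * e (t * (d : ℝ)) :=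
    int_digit hX k (fun d => e (t * (d : ℝ)))
  have hre : (∑ d ∈ Finset.range a, (p d : ℂ) * e (t * (d : ℝ))).re =
      ∑ d ∈ Finset.range a, p d * Real.cos (2 * Real.pi * (t * d)) := by
    rw [Complex.re_sum]
    refine Finset.sum_congr rfl fun d _ => ?_
    rw [Complex.re_ofReal_mul, e_re]
  have him : (∑ d ∈ Finset.range a, (p d : ℂ) * e (t * (d : ℝ))).im =
      ∑ d ∈ Finset.range a, p d * Real.sin (2 * Real.pi * (t * d)) := by
    rw [Complex.im_sum]
    refine Finset.sum_congr rfl fun d _ => ?_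
    rw [Complex.im_ofReal_mul, e_im]
  have hsq : ‖∫ ω, e (t * (X k ω : ℝ)) ∂P‖ ^ 2 =
      ∑ d ∈ Finset.range a, ∑ d' ∈ Finset.range a,
        p d * p d' * Real.cos (2 * Real.pi * (t * ((d : ℝ) - d'))) := by
    rw [h1, Complex.sq_norm, Complex.normSq_apply, hre, him, Finset.sum_mul_sum,
      Finset.sum_mul_sum, ← Finset.sum_add_distrib]
    refine Finset.sum_congr rfl fun d _ => ?_
    rw [← Finset.sum_add_distrib]
    refine Finset.sum_congr rfl fun d' _ => ?_
    have : 2 * Real.pi * (t * ((d : ℝ) - d')) = 2 * Real.pi * (t * d) - 2 * Real.pi * (t * d') := by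
      ring
    rw [this, Real.cos_sub]
    ring
  have hle : ‖∫ ω, e (t * (X k ω : ℝ)) ∂P‖ ^ 2 ≤
      ∑ d ∈ Finset.range a, ∑ d' ∈ Finset.range a,
        (c * (p d * p d') + if d = d' then (1 - c) * (p d * p d') else 0) := by
    rw [hsq]
    refine Finset.sum_le_sum fun d hd => Finset.sum_le_sum fun d' hd' => ?_
    have hpp : 0 ≤ p d * p d' := mul_nonneg (hp0 d) (hp0 d')
    by_cases hdd : d = d'
    · rw [if_pos hdd, hdd, sub_self, mul_zero, mul_zero, Real.cos_zero]
      linarith
    · rw [if_neg hdd, add_zero, mul_comm]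
      obtain ⟨N, n1, n2⟩ := hF d d' (Finset.mem_range.1 hd) (Finset.mem_range.1 hd') hdd
      exact mul_le_mul_of_nonneg_right (cos_bound hδ n1 n2) hpp
  have hval : ∑ d ∈ Finset.range a, ∑ d' ∈ Finset.range a,
        (c * (p d * p d') + if d = d' then (1 - c) * (p d * p d') else 0) =
      1 - (1 - c) * eta P a X k := by
    have s1 : ∀ d ∈ Finset.range a, ∑ d' ∈ Finset.range a,
        (c * (p d * p d') + if d = d' then (1 - c) * (p d * p d') else 0) =
        c * p d + (1 - c) * p d ^ 2 := by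
      intro d hd
      rw [Finset.sum_add_distrib, ← Finset.mul_sum, ← Finset.mul_sum, hp1,
        Finset.sum_ite_eq, if_pos hd]
      ring
    rw [Finset.sum_congr rfl s1, Finset.sum_add_distrib, ← Finset.mul_sum, ← Finset.mul_sum, hp1]
    unfold eta
    ring
  rw [hval] at hle
  have h2 : 1 - (1 - c) * eta P a X k ≤
      (Real.exp (-((1 - c) / 2) * eta P a X k)) ^ 2 := by
    rw [← Real.exp_nat_mul]
    have := Real.add_one_le_exp (-((1 - c) * eta P a X k))
    have e1 : ((2 : ℕ) : ℝ) * (-((1 - c) / 2) * eta P a X k) = -((1 - c) * eta P a X k) := by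
      push_cast; ring
    rw [e1]
    linarith
  exact (sq_le_sq₀ (norm_nonneg _) (Real.exp_pos _).le).1 (hle.trans h2)

theorem phi_le_one (k : ℕ) (t : ℝ) : ‖∫ ω, e (t * (X k ω : ℝ)) ∂P‖ ≤ 1 := by
  refine (norm_integral_le_integral_norm _).trans ?_
  simp only [e_norm, integral_const, probReal_univ, one_smul]
  exact le_refl _

theorem prod_int (hX : Digits P a X) (ξ : ℝ) (n : ℕ) :
    ∫ ω, e (ξ * ∑ k ∈ Finset.range n, (X k ω : ℝ) / (a : ℝ) ^ (k + 1)) ∂P =
      ∏ k ∈ Finset.range n, ∫ ω, e (ξ / (a : ℝ) ^ (k + 1) * (X k ω : ℝ)) ∂P := by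
  have hm : ∀ k, Measurable fun ω => (X k ω : ℝ) / (a : ℝ) ^ (k + 1) := fun k =>
    ((measurable_of_countable (fun m : ℕ => (m : ℝ))).comp (hX.meas k)).div_const _
  have hY : iIndepFun (fun k ω => (X k ω : ℝ) / (a : ℝ) ^ (k + 1)) P :=
    hX.indep.comp (fun k (m : ℕ) => (m : ℝ) / (a : ℝ) ^ (k + 1))
      (fun k => measurable_of_countable _)
  have h := (hY.restrict (Finset.range n)).charFun_map_fun_finsetSum_eq_prod
    (fun k _ => (hm k).aemeasurable)
  have h2 := congrFun h (2 * Real.pi * ξ)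
  rw [Finset.prod_apply, charFun_apply_real, integral_map] at h2
  · rw [← Finset.prod_congr rfl (fun k _ => ?_), ← h2]
    · refine integral_congr_ae (Eventually.of_forall fun ω => ?_)
      unfold e
      simp only
      congr 1
      push_cast
      ring
    · rw [charFun_apply_real, integral_map (hm k).aemeasurable]
      · refine integral_congr_ae (Eventually.of_forall fun ω => ?_)
        unfold e
        simp only
        congr 1
        push_cast
        ring
      · exact (by fun_prop : Continuous fun x : ℝ =>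
          Complex.exp (((2 * Real.pi * ξ : ℝ) : ℂ) * x * Complex.I)).aestronglyMeasurable
  · exact (Finset.measurable_sum _ fun k _ => hm k).aemeasurable
  · exact (by fun_prop : Continuous fun x : ℝ =>
      Complex.exp (((2 * Real.pi * ξ : ℝ) : ℂ) * x * Complex.I)).aestronglyMeasurable

theorem digit_tendsto (ha : 2 ≤ a) (d : ℕ → ℕ) (hd : ∀ k, d k < a) :
    Tendsto (fun n => ∑ k ∈ Finset.range n, (d k : ℝ) / (a : ℝ) ^ (k + 1)) atTop
      (𝓝 (num a d)) := by
  have ha' : (2 : ℝ) ≤ a := by exact_mod_cast ha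
  have hs : Summable fun k => (d k : ℝ) / (a : ℝ) ^ (k + 1) := by
    refine Summable.of_nonneg_of_le (fun k => by positivity) (fun k => ?_)
      (summable_geometric_of_lt_one (r := 1 / (a : ℝ)) (by positivity)
        (by rw [div_lt_one (by linarith)]; linarith))
    rw [div_pow, one_pow, pow_succ, div_le_div_iff₀ (by positivity) (by positivity)]
    have h1 : (d k : ℝ) ≤ a := by exact_mod_cast (hd k).le
    have h2 : (0 : ℝ) < (a : ℝ) ^ k := by positivity
    nlinarith
  exact hs.hasSum.tendsto_sum_nat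

end CharAux

open CharAux

theorem char : CharStatement := by
  intro Ω _ P _ a ha X hX ξ δ hδ hδ2 F hF
  set C := (1 - Real.cos (2 * Real.pi * δ)) / 2 with hC
  have hm : ∀ n, Measurable fun ω => ∑ k ∈ Finset.range n, (X k ω : ℝ) / (a : ℝ) ^ (k + 1) :=
    fun n => Finset.measurable_sum _ fun k _ =>
      ((measurable_of_countable (fun m : ℕ => (m : ℝ))).comp (hX.meas k)).div_const _
  have hlim : Tendsto (fun n => ∫ ω, e (ξ * ∑ k ∈ Finset.range n,
      (X k ω : ℝ) / (a : ℝ) ^ (k + 1)) ∂P) atTop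
      (𝓝 (∫ ω, e (ξ * num a (fun k => X k ω)) ∂P)) := by
    refine tendsto_integral_of_dominated_convergence (fun _ => (1 : ℝ)) (fun n => ?_)
      (integrable_const _) (fun n => Eventually.of_forall fun ω => (e_norm _).le)
      (Eventually.of_forall fun ω => ?_)
    · exact (e_cont.measurable.comp ((hm n).const_mul ξ)).aestronglyMeasurable
    · exact (e_cont.tendsto _).comp ((digit_tendsto ha _ (fun k => hX.lt k ω)).const_mul ξ)
  refine le_of_tendsto hlim.norm ?_
  obtain ⟨N, hN⟩ : ∃ N, F ⊆ Finset.range N := by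
    refine ⟨F.sup id + 1, fun k hk => ?_⟩
    rw [Finset.mem_range]
    exact Nat.lt_succ_of_le (Finset.le_sup (f := id) hk)
  refine eventually_atTop.2 ⟨N, fun n hn => ?_⟩
  rw [prod_int hX ξ n, norm_prod]
  have hFn : F ⊆ Finset.range n := hN.trans (Finset.range_subset_range.2 hn)
  calc ∏ k ∈ Finset.range n, ‖∫ ω, e (ξ / (a : ℝ) ^ (k + 1) * (X k ω : ℝ)) ∂P‖
      ≤ ∏ k ∈ Finset.range n, (if k ∈ F then Real.exp (-C * eta P a X k) else 1) := by
        refine Finset.prod_le_prod (fun k _ => norm_nonneg _) (fun k _ => ?_)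
        split_ifs with hk
        · refine phi_bound hX k _ hδ (fun d d' h1 h2 h3 => ?_)
          obtain ⟨M, m1, m2⟩ := hF k hk d d' h1 h2 h3
          have e1 : ξ / (a : ℝ) ^ (k + 1) * ((d : ℝ) - d') =
              ξ * ((d : ℝ) - d') / (a : ℝ) ^ (k + 1) := by ring
          rw [e1]
          exact ⟨M, m1, m2⟩
        · exact phi_le_one k _
    _ = ∏ k ∈ F, Real.exp (-C * eta P a X k) := by
        rw [← Finset.prod_filter]
        congr 1
        ext k
        rw [Finset.mem_filter]
        exact ⟨fun h => h.2, fun h => ⟨hFn h, h⟩⟩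
    _ = Real.exp (-C * ∑ k ∈ F, eta P a X k) := by
        rw [← Real.exp_sum, Finset.mul_sum]

end Pool.Agent.R191.FD
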