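import Pool.Agent.R191.FD.Defs

/-!
# Generic numbers with prescribed digit sets (MP_c9a594_an)
-/

set_option autoImplicit false

namespace Pool.Agent.R191.FD

open Filter Topology Set

/-- existence of a good point in every product of digit sets -/
def GoodStatement : Prop :=
  ∀ (a : ℕ) (_ : 2 ≤ a) (D : ℕ → Finset (Fin a)) (_ : ∀ k, (D k).Nonempty)
    (_ : ∃ᶠ k in atTop, 2 ≤ (D k).card) (t : ℝ),
    ∃ ω : ℕ → Fin a, (∀ k, ω k ∈ D k) ∧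
      ∀ b : ℕ, 2 ≤ b → (∃ p : ℕ, p.Prime ∧ p ∣ a ∧ ¬ p ∣ b) →
        orb b (t + num a (fun k => (ω k : ℕ))) = Icc 0 1

/-- generic points of products of digit sets -/
def ResidualStatement : Prop :=
  ∀ (a : ℕ) (_ : 2 ≤ a) (D : ℕ → Finset (Fin a)) (_ : ∀ k, (D k).Nonempty)
    (_ : ∃ᶠ k in atTop, 2 ≤ (D k).card) (t : ℝ),
    {d : {d : ℕ → Fin a // ∀ k, d k ∈ D k} |
      ∀ b : ℕ, 2 ≤ b → (∃ p : ℕ, p.Prime ∧ p ∣ a ∧ ¬ p ∣ b) →
        orb b (t + num a (fun k => (d.1 k : ℕ))) = Icc 0 1} ∈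
      residual {d : ℕ → Fin a // ∀ k, d k ∈ D k}

end Pool.Agent.R191.FD
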