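import Pool.Agent.R191.FD.Defs

/-!
# Independent digits without atoms: divergence of the variances (MP_c9a594_an, part C)
-/

set_option autoImplicit false

namespace Pool.Agent.R191.FD

open MeasureTheory ProbabilityTheory Filter Topology Set

variable {Ω : Type} [MeasurableSpace Ω] {P : Measure Ω} [IsProbabilityMeasure P] {a : ℕ}
  {X : ℕ → Ω → ℕ}

theorem Digits.measSet (hX : Digits P a X) (k d : ℕ) : MeasurableSet {ω | X k ω = d} :=
  hX.meas k (measurableSet_singleton d)

theorem Digits.sum_prob (hX : Digits P a X) (k : ℕ) :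
    ∑ d ∈ Finset.range a, P.real {ω | X k ω = d} = 1 := by
  rw [← measureReal_biUnion_finset]
  · have : (⋃ d ∈ Finset.range a, {ω | X k ω = d}) = univ := by
      ext ω
      simp [hX.lt k ω]
    rw [this]
    exact probReal_univ
  · intro i _ j _ hij
    refine Set.disjoint_left.2 ?_
    intro ω h1 h2
    exact hij (h1.symm.trans h2)
  · intro d _
    exact hX.measSet k d

theorem Digits.exists_mode (ha : 2 ≤ a) (hX : Digits P a X) (k : ℕ) :
    ∃ d : ℕ, P.real {ω | X k ω ≠ d} ≤ eta P a X k := by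
  obtain ⟨d, hd, hmax⟩ := Finset.exists_max_image (Finset.range a)
    (fun d => P.real {ω | X k ω = d}) ⟨0, Finset.mem_range.2 (by omega)⟩
  refine ⟨d, ?_⟩
  have h1 : P.real {ω | X k ω ≠ d} = 1 - P.real {ω | X k ω = d} := by
    have := probReal_compl_eq_one_sub (μ := P) (hX.measSet k d)
    exact this
  have h2 : ∑ d' ∈ Finset.range a, (P.real {ω | X k ω = d'}) ^ 2 ≤ P.real {ω | X k ω = d} := by
    calc ∑ d' ∈ Finset.range a, (P.real {ω | X k ω = d'}) ^ 2
        ≤ ∑ d' ∈ Finset.range a, P.real {ω | X k ω = d} * P.real {ω | X k ω = d'} := by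
          refine Finset.sum_le_sum fun d' hd' => ?_
          rw [sq]
          exact mul_le_mul_of_nonneg_right (hmax d' hd') measureReal_nonneg
      _ = P.real {ω | X k ω = d} := by rw [← Finset.mul_sum, hX.sum_prob k, mul_one]
  rw [h1, eta]
  linarith

theorem Digits.eta_nonneg (ha : 2 ≤ a) (hX : Digits P a X) (k : ℕ) : 0 ≤ eta P a X k := by
  obtain ⟨d, hd⟩ := hX.exists_mode ha k
  exact measureReal_nonneg.trans hd

theorem countable_eventually_eq (d : ℕ → ℕ) : {f : ℕ → ℕ | ∀ᶠ k in atTop, f k = d k}.Countable := by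
  have h : {f : ℕ → ℕ | ∀ᶠ k in atTop, f k = d k} ⊆
      ⋃ n : ℕ, range fun g : Fin n → ℕ => fun k => if h : k < n then g ⟨k, h⟩ else d k := by
    intro f hf
    obtain ⟨n, hn⟩ := eventually_atTop.1 hf
    refine mem_iUnion.2 ⟨n, fun k => f k, ?_⟩
    funext k
    by_cases hk : k < n
    · simp [hk]
    · simp only [hk, dif_neg, not_false_eq_true]
      exact (hn k (not_lt.1 hk)).symm
  exact (countable_iUnion fun n => countable_range _).mono h

/-- **Part C.** -/
theorem divergence : DivStatement := by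
  intro Ω _ P _ a ha X hX hat
  have hnn : ∀ k, 0 ≤ eta P a X k := fun k => hX.eta_nonneg ha k
  rw [← not_summable_iff_tendsto_nat_atTop_of_nonneg hnn]
  intro hsum
  choose d hd using fun k => hX.exists_mode ha k
  have h1 : ∑' k, P {ω | X k ω ≠ d k} ≠ ⊤ := by
    have h2 : ∑' k, P {ω | X k ω ≠ d k} ≤ ∑' k, ENNReal.ofReal (eta P a X k) := by
      refine ENNReal.tsum_le_tsum fun k => ?_
      rw [← ofReal_measureReal]
      exact ENNReal.ofReal_le_ofReal (hd k)
    refine ne_top_of_le_ne_top ?_ h2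
    rw [← ENNReal.ofReal_tsum_of_nonneg hnn hsum]
    exact ENNReal.ofReal_ne_top
  have h2 : ∀ᵐ ω ∂P, ∀ᶠ k in atTop, ω ∉ {ω | X k ω ≠ d k} := ae_eventually_notMem h1
  set C : Set ℝ := (num a) '' {f : ℕ → ℕ | ∀ᶠ k in atTop, f k = d k} with hC
  have hCc : C.Countable := (countable_eventually_eq d).image _
  have h3 : P (⋃ r ∈ C, {ω | num a (fun k => X k ω) = r}) = 0 :=
    (measure_biUnion_null_iff hCc).2 fun r _ => hat r
  have h4 : ∀ᵐ ω ∂P, ω ∉ ⋃ r ∈ C, {ω | num a (fun k => X k ω) = r} := measure_eq_zero_iff_ae_notMem.1 h3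
  have h5 : ∀ᵐ _ω ∂P, False := by
    filter_upwards [h2, h4] with ω hω1 hω2
    apply hω2
    refine mem_iUnion₂.2 ⟨num a (fun k => X k ω), ⟨fun k => X k ω, ?_, rfl⟩, rfl⟩
    filter_upwards [hω1] with k hk
    simpa using hk
  have h6 : P univ = 0 := by
    have := ae_iff.1 h5
    simpa using this
  rw [measure_univ] at h6
  exact one_ne_zero h6

end Pool.Agent.R191.FD
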