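import Pool.Agent.R191.FD.DefsG

/-!
# Generic numbers with prescribed digit sets: part G
-/

set_option autoImplicit false

namespace Pool.Agent.R191.FD

open Filter Topology Set

theorem gen_open {q1 q2 : ℝ} (h0 : 0 ≤ q1) (h1 : q2 ≤ 1) :
    IsOpen {y : ℝ | Int.fract y ∈ Ioo q1 q2} := by
  have : {y : ℝ | Int.fract y ∈ Ioo q1 q2} = ⋃ z : ℤ, Ioo ((z:ℝ) + q1) (z + q2) := by
    ext y
    constructor
    · intro hy
      have hy' : Int.fract y ∈ Ioo q1 q2 := hy
      refine mem_iUnion.2 ⟨⌊y⌋, ?_⟩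
      have := Int.floor_add_fract y
      constructor <;> linarith [hy'.1, hy'.2]
    · intro hy
      obtain ⟨z, hz⟩ := mem_iUnion.1 hy
      have hz' : ⌊y⌋ = z := by
        rw [Int.floor_eq_iff]
        constructor <;> linarith [hz.1, hz.2]
      change Int.fract y ∈ Ioo q1 q2
      have := Int.floor_add_fract y
      rw [hz'] at this
      constructor <;> linarith [hz.1, hz.2]
  rw [this]
  exact isOpen_iUnion fun z => isOpen_Ioo

theorem gen_cont {a : ℕ} (ha : 2 ≤ a) (D : ℕ → Finset (Fin a)) :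
    Continuous fun d : {d : ℕ → Fin a // ∀ k, d k ∈ D k} => num a (fun k => (d.1 k : ℕ)) := by
  have ha' : (2:ℝ) ≤ a := by exact_mod_cast ha
  have ha0 : (0:ℝ) < a := by linarith
  unfold num
  refine continuous_tsum (u := fun k => (1 / (a:ℝ)) ^ k) (fun k => ?_) ?_ ?_
  · have h1 : Continuous fun d : {d : ℕ → Fin a // ∀ k, d k ∈ D k} => d.1 k :=
      (continuous_apply k).comp continuous_subtype_val
    have h2 : Continuous fun i : Fin a => ((i : ℕ) : ℝ) / (a : ℝ) ^ (k + 1) :=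
      continuous_of_discreteTopology
    exact h2.comp h1
  · refine summable_geometric_of_lt_one (by positivity) ?_
    rw [div_lt_one ha0]
    linarith
  · intro k d
    rw [Real.norm_of_nonneg (by positivity), one_div, inv_pow, ← one_div,
      div_le_div_iff₀ (by positivity) (by positivity), one_mul, pow_succ, mul_comm]
    refine mul_le_mul_of_nonneg_left ?_ (by positivity)
    exact_mod_cast (d.1 k).2.le

theorem generic (h : GoodStatement) : ResidualStatement := by
  classical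
  intro a ha D hD hD2 t
  obtain ⟨N, hN⟩ : ∃ N : {d : ℕ → Fin a // ∀ k, d k ∈ D k} → ℝ,
    ∀ d, N d = num a (fun k => (d.1 k : ℕ)) := ⟨_, fun _ => rfl⟩
  have hNc : Continuous N := by
    have : N = fun d => num a (fun k => (d.1 k : ℕ)) := funext hN
    rw [this]
    exact gen_cont ha D
  have key : ∀ (b : ℕ) (q1 q2 : ℚ), 2 ≤ b → (∃ p : ℕ, p.Prime ∧ p ∣ a ∧ ¬ p ∣ b) →
      (0:ℝ) ≤ q1 → (q1:ℝ) < q2 → (q2:ℝ) ≤ 1 →
      ∀ᶠ d in residual {d : ℕ → Fin a // ∀ k, d k ∈ D k},
        ∃ n : ℕ, Int.fract ((b:ℝ) ^ n * (t + N d)) ∈ Ioo (q1:ℝ) q2 := by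
    intro b q1 q2 hb hp h0 h12 h1
    refine residual_of_dense_open (s := {d | ∃ n : ℕ, Int.fract ((b:ℝ) ^ n * (t + N d)) ∈
      Ioo (q1:ℝ) q2}) ?_ ?_
    · have : {d | ∃ n : ℕ, Int.fract ((b:ℝ) ^ n * (t + N d)) ∈ Ioo (q1:ℝ) q2} =
          ⋃ n : ℕ, (fun d => (b:ℝ) ^ n * (t + N d)) ⁻¹' {y : ℝ | Int.fract y ∈ Ioo (q1:ℝ) q2} := by
        ext d
        constructor
        · rintro ⟨n, hn⟩
          exact mem_iUnion.2 ⟨n, hn⟩
        · intro hd
          obtain ⟨n, hn⟩ := mem_iUnion.1 hd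
          exact ⟨n, hn⟩
      rw [this]
      exact isOpen_iUnion fun n => (gen_open h0 h1).preimage
        (continuous_const.mul (continuous_const.add hNc))
    · rw [dense_iff_inter_open]
      rintro O hO ⟨w, hw⟩
      obtain ⟨O', hO', rfl⟩ := isOpen_induced_iff.1 hO
      obtain ⟨I, u, hu, huO⟩ := isOpen_pi_iff.1 hO' w.1 hw
      obtain ⟨D', hD'⟩ : ∃ D' : ℕ → Finset (Fin a), ∀ k, D' k = if k ∈ I then {w.1 k} else D k :=
        ⟨_, fun _ => rfl⟩
      obtain ⟨ω, hω, hωb⟩ := h a ha D' (fun k => by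
        rw [hD']
        split_ifs
        · exact Finset.singleton_nonempty _
        · exact hD k) (by
        have h3 : ∀ᶠ k in atTop, k ∉ I := by
          have := I.finite_toSet.eventually_cofinite_notMem
          rw [Nat.cofinite_eq_atTop] at this
          exact this
        refine (hD2.and_eventually h3).mono fun k hk => ?_
        rw [hD', if_neg hk.2]
        exact hk.1) t
      have hωK : ∀ k, ω k ∈ D k := fun k => by
        have := hω k
        rw [hD'] at this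
        split_ifs at this with h4
        · rw [Finset.mem_singleton.1 this]
          exact w.2 k
        · exact this
      refine ⟨⟨ω, hωK⟩, huO fun k hk => ?_, ?_⟩
      · have := hω k
        rw [hD', if_pos (Finset.mem_coe.1 hk), Finset.mem_singleton] at this
        change ω k ∈ u k
        rw [this]
        exact (hu k hk).2
      · have h5 := hωb b hb hp
        have h6 : ((q1:ℝ) + q2) / 2 ∈ orb b (t + num a (fun k => (ω k : ℕ))) := by
          rw [h5]
          constructor <;> linarith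
        unfold orb at h6
        rw [mem_closure_iff] at h6
        obtain ⟨_, hy, ⟨n, rfl⟩⟩ := h6 (Ioo (q1:ℝ) q2) isOpen_Ioo ⟨by linarith, by linarith⟩
        refine ⟨n, ?_⟩
        rw [hN]
        exact hy
  have hall : ∀ᶠ d in residual {d : ℕ → Fin a // ∀ k, d k ∈ D k}, ∀ (b : ℕ) (q1 q2 : ℚ),
      2 ≤ b → (∃ p : ℕ, p.Prime ∧ p ∣ a ∧ ¬ p ∣ b) → (0:ℝ) ≤ q1 → (q1:ℝ) < q2 → (q2:ℝ) ≤ 1 →
        ∃ n : ℕ, Int.fract ((b:ℝ) ^ n * (t + N d)) ∈ Ioo (q1:ℝ) q2 := by
    refine eventually_countable_forall.2 fun b => eventually_countable_forall.2 fun q1 =>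
      eventually_countable_forall.2 fun q2 => ?_
    by_cases hc : 2 ≤ b ∧ (∃ p : ℕ, p.Prime ∧ p ∣ a ∧ ¬ p ∣ b) ∧ (0:ℝ) ≤ q1 ∧ (q1:ℝ) < q2 ∧
        (q2:ℝ) ≤ 1
    · exact (key b q1 q2 hc.1 hc.2.1 hc.2.2.1 hc.2.2.2.1 hc.2.2.2.2).mono
        fun d hd _ _ _ _ _ => hd
    · exact Eventually.of_forall fun d h1 h2 h3 h4 h5 => absurd ⟨h1, h2, h3, h4, h5⟩ hc
  refine hall.mono fun d hd b hb hp => ?_
  apply Subset.antisymm
  · unfold orb
    refine closure_minimal ?_ isClosed_Icc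
    rintro _ ⟨n, rfl⟩
    exact ⟨Int.fract_nonneg _, (Int.fract_lt_one _).le⟩
  · intro y hy
    unfold orb
    rw [Metric.mem_closure_iff]
    intro ε hε
    have h1 : max 0 (y - ε) < min 1 (y + ε) :=
      max_lt (lt_min one_pos (by linarith [hy.1])) (lt_min (by linarith [hy.2]) (by linarith))
    obtain ⟨q1, h2, h3⟩ := exists_rat_btwn h1
    obtain ⟨q2, h4, h5⟩ := exists_rat_btwn h3
    obtain ⟨n, hn⟩ := hd b q1 q2 hb hp ((le_max_left _ _).trans h2.le) h4
      (h5.le.trans (min_le_left _ _))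
    rw [hN] at hn
    refine ⟨_, ⟨n, rfl⟩, ?_⟩
    rw [Real.dist_eq, abs_lt]
    have h6 := (le_max_right _ _).trans_lt h2
    have h7 := h5.trans_le (min_le_right _ _)
    constructor <;> linarith [hn.1, hn.2]

end Pool.Agent.R191.FD
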