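import Pool.Agent.R191.FD.Main
import Pool.Agent.R191.FD.DefsG

/-!
# Good points in products of digit sets (MP_c9a594_an)
-/

set_option autoImplicit false

namespace Pool.Agent.R191.FD

open MeasureTheory ProbabilityTheory Filter Topology Set

/-- existence of a good point in every product of digit sets -/
theorem good_of (hA : ArithStatement) (hB : CharStatement) (hD : AvgStatement) :
    GoodStatement := by
  intro a ha D hne hfreq t
  let μ : ∀ _k : ℕ, Measure (Fin a) := fun k => (PMF.uniformOfFinset (D k) (hne k)).toMeasure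
  haveI : ∀ k, IsProbabilityMeasure (μ k) := fun k => PMF.toMeasure.isProbabilityMeasure _
  let P : Measure (ℕ → Fin a) := Measure.infinitePi μ
  let X : ℕ → (ℕ → Fin a) → ℕ := fun k ω => (ω k : ℕ)
  have hval : Measurable (fun i : Fin a => (i : ℕ)) := measurable_from_top
  have hX : Digits P a X := by
    refine ⟨fun k => ?_, ?_, fun k ω => (ω k).2⟩
    · exact hval.comp (measurable_pi_apply k)
    · exact iIndepFun_infinitePi (P := μ) (X := fun _ (i : Fin a) => (i : ℕ)) fun _ => hval
  have hmap : ∀ (k : ℕ) (s : Set (Fin a)), P ((fun ω => ω k) ⁻¹' s) = μ k s := by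
    intro k s
    have h1 : MeasurePreserving (Function.eval k) P (μ k) := measurePreserving_eval_infinitePi μ k
    exact h1.measure_preimage (MeasurableSet.of_discrete).nullMeasurableSet
  have hpt : ∀ (k d : ℕ) (hd : d < a), P.real {ω | X k ω = d} =
      if (⟨d, hd⟩ : Fin a) ∈ D k then ((D k).card : ℝ)⁻¹ else 0 := by
    intro k d hd
    have e1 : {ω : ℕ → Fin a | X k ω = d} = (fun ω => ω k) ⁻¹' {(⟨d, hd⟩ : Fin a)} := by
      ext ω
      simp only [mem_setOf_eq, mem_preimage, mem_singleton_iff]
      constructor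
      · intro h
        exact Fin.ext h
      · intro h
        simp [X, h]
    rw [e1, measureReal_def, hmap]
    simp only [μ]
    rw [PMF.toMeasure_apply_singleton _ _ (MeasurableSet.of_discrete), PMF.uniformOfFinset_apply]
    by_cases hmem : (⟨d, hd⟩ : Fin a) ∈ D k
    · simp [hmem]
    · simp [hmem]
  have heta : ∀ k, eta P a X k = 1 - ((D k).card : ℝ)⁻¹ := by
    intro k
    rw [eta]
    congr 1
    have h1 : ∑ d ∈ Finset.range a, (P.real {ω | X k ω = d}) ^ 2 =
        ∑ i : Fin a, (P.real {ω | X k ω = (i : ℕ)}) ^ 2 := by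
      rw [Finset.sum_range]
    rw [h1]
    have h2 : ∀ i : Fin a, (P.real {ω | X k ω = (i : ℕ)}) ^ 2 =
        if i ∈ D k then (((D k).card : ℝ)⁻¹) ^ 2 else 0 := by
      intro i
      rw [hpt k i i.2]
      by_cases hi : i ∈ D k
      · simp [hi]
      · simp [hi]
    simp only [h2]
    rw [Finset.sum_ite_mem, Finset.univ_inter, Finset.sum_const, nsmul_eq_mul]
    have : ((D k).card : ℝ) ≠ 0 := by
      have := (hne k).card_pos
      positivity
    field_simp
  have hnn : ∀ k, 0 ≤ eta P a X k := fun k => hX.eta_nonneg ha k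
  have hdiv : Tendsto (fun K : ℕ => ∑ k ∈ Finset.range K, eta P a X k) atTop atTop := by
    rw [← not_summable_iff_tendsto_nat_atTop_of_nonneg hnn]
    intro hs
    have h0 := hs.tendsto_atTop_zero
    have h1 : ∀ᶠ k in atTop, eta P a X k < 1 / 2 := h0.eventually_lt_const (by norm_num)
    obtain ⟨k, hk1, hk2⟩ := (hfreq.and_eventually h1).exists
    rw [heta k] at hk2
    have h2 : (2 : ℝ) ≤ (D k).card := by exact_mod_cast hk1
    have h3 : ((D k).card : ℝ)⁻¹ ≤ 1 / 2 := by
      rw [inv_eq_one_div]
      exact one_div_le_one_div_of_le (by norm_num) h2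
    linarith
  have hall := all_bases hA hB hD ha hX hdiv t
  have hmem : ∀ᵐ ω ∂P, ∀ k, ω k ∈ D k := by
    rw [ae_all_iff]
    intro k
    rw [ae_iff]
    have e1 : {ω : ℕ → Fin a | ¬ ω k ∈ D k} = (fun ω => ω k) ⁻¹' {i | i ∉ D k} := rfl
    rw [e1, hmap]
    simp only [μ]
    rw [PMF.toMeasure_uniformOfFinset_apply (ht := MeasurableSet.of_discrete)]
    simp
  obtain ⟨ω, hω1, hω2⟩ := (hmem.and hall).exists
  exact ⟨ω, hω1, hω2⟩

end Pool.Agent.R191.FD
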