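import Pool.Agent.R191.FD.Div

/-!
# Independent digits without atoms: assembly (MP_c9a594_an)
-/

set_option autoImplicit false

namespace Pool.Agent.R191.FD

open MeasureTheory ProbabilityTheory Filter Topology Set

theorem e_zero : e 0 = 1 := by simp [e]

theorem norm_e (t : ℝ) : ‖e t‖ = 1 := by
  rw [e, Complex.norm_exp_ofReal_mul_I]

theorem e_add (s t : ℝ) : e (s + t) = e s * e t := by
  rw [e, e, e, ← Complex.exp_add]
  congr 1
  push_cast
  ring

theorem conj_e (t : ℝ) : (starRingEnd ℂ) (e t) = e (-t) := by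
  rw [e, e, ← Complex.exp_conj, map_mul, Complex.conj_ofReal, Complex.conj_I]
  congr 1
  push_cast
  ring

theorem e_sub (s t : ℝ) : e (s - t) = e s * (starRingEnd ℂ) (e t) := by
  rw [conj_e, sub_eq_add_neg, e_add]

theorem measurable_e : Measurable e := by
  unfold e
  fun_prop

variable {Ω : Type} [MeasurableSpace Ω] {P : Measure Ω} [IsProbabilityMeasure P]

theorem integrable_e {x : Ω → ℝ} (hx : Measurable x) (t : ℝ) :
    Integrable (fun ω => e (t * x ω)) P :=
  Integrable.of_bound (measurable_e.comp (hx.const_mul t)).aestronglyMeasurable 1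
    (Eventually.of_forall fun ω => (norm_e _).le)

/-- the second moment of an average -/
theorem second_moment {x : Ω → ℝ} (hx : Measurable x) (R : ℕ) (hR : 1 ≤ R) (t : ℕ → ℝ) (q : ℝ)
    (hq0 : 0 ≤ q)
    (hq : ∀ r s : ℕ, r < R → s < R → r ≠ s → ‖∫ ω, e ((t r - t s) * x ω) ∂P‖ ≤ q) :
    ∫ ω, ‖(R : ℂ)⁻¹ * ∑ r ∈ Finset.range R, e (t r * x ω)‖ ^ 2 ∂P ≤ 1 / R + q := by
  have hR0 : (0 : ℝ) < R := by exact_mod_cast hR
  have key : ∀ ω, ((‖(R : ℂ)⁻¹ * ∑ r ∈ Finset.range R, e (t r * x ω)‖ ^ 2 : ℝ) : ℂ) =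
      ((R : ℂ)⁻¹) ^ 2 * ∑ r ∈ Finset.range R, ∑ s ∈ Finset.range R, e ((t r - t s) * x ω) := by
    intro ω
    have h1 : ∀ z : ℂ, ((‖z‖ ^ 2 : ℝ) : ℂ) = z * (starRingEnd ℂ) z := by
      intro z
      rw [Complex.mul_conj, Complex.normSq_eq_norm_sq]
    rw [h1, map_mul, map_sum]
    have h2 : (starRingEnd ℂ) ((R : ℂ)⁻¹) = (R : ℂ)⁻¹ := by
      simp
    rw [h2]
    calc ((R : ℂ)⁻¹ * (∑ r ∈ Finset.range R, e (t r * x ω))) *
          ((R : ℂ)⁻¹ * ∑ s ∈ Finset.range R, (starRingEnd ℂ) (e (t s * x ω)))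
        = ((R : ℂ)⁻¹) ^ 2 * ((∑ r ∈ Finset.range R, e (t r * x ω)) *
          ∑ s ∈ Finset.range R, (starRingEnd ℂ) (e (t s * x ω))) := by ring
      _ = _ := by
          rw [Finset.sum_mul_sum]
          congr 1
          refine Finset.sum_congr rfl fun r _ => Finset.sum_congr rfl fun s _ => ?_
          rw [sub_mul, e_sub]
  have hint : ((∫ ω, ‖(R : ℂ)⁻¹ * ∑ r ∈ Finset.range R, e (t r * x ω)‖ ^ 2 ∂P : ℝ) : ℂ) =
      ((R : ℂ)⁻¹) ^ 2 * ∑ r ∈ Finset.range R, ∑ s ∈ Finset.range R,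
        ∫ ω, e ((t r - t s) * x ω) ∂P := by
    rw [← integral_complex_ofReal]
    simp only [key]
    rw [integral_const_mul, integral_finsetSum]
    · congr 1
      refine Finset.sum_congr rfl fun r _ => ?_
      rw [integral_finsetSum]
      intro s _
      exact integrable_e hx _
    · intro r _
      exact integrable_finsetSum _ fun s _ => integrable_e hx _
  have hnn : 0 ≤ ∫ ω, ‖(R : ℂ)⁻¹ * ∑ r ∈ Finset.range R, e (t r * x ω)‖ ^ 2 ∂P :=
    integral_nonneg fun ω => by positivity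
  have hnorm : ∫ ω, ‖(R : ℂ)⁻¹ * ∑ r ∈ Finset.range R, e (t r * x ω)‖ ^ 2 ∂P =
      ‖((R : ℂ)⁻¹) ^ 2 * ∑ r ∈ Finset.range R, ∑ s ∈ Finset.range R,
        ∫ ω, e ((t r - t s) * x ω) ∂P‖ := by
    rw [← hint, Complex.norm_real, Real.norm_of_nonneg hnn]
  rw [hnorm, norm_mul, norm_pow, norm_inv, Complex.norm_natCast]
  have hbound : ‖∑ r ∈ Finset.range R, ∑ s ∈ Finset.range R, ∫ ω, e ((t r - t s) * x ω) ∂P‖ ≤
      ∑ r ∈ Finset.range R, ∑ s ∈ Finset.range R, ((if r = s then 1 else 0) + q) := by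
    refine (norm_sum_le _ _).trans (Finset.sum_le_sum fun r hr => ?_)
    refine (norm_sum_le _ _).trans (Finset.sum_le_sum fun s hs => ?_)
    by_cases h : r = s
    · subst h
      rw [if_pos rfl]
      have : ‖∫ ω, e ((t r - t r) * x ω) ∂P‖ ≤ 1 := by
        simp [e_zero]
      linarith
    · rw [if_neg h, zero_add]
      exact hq r s (Finset.mem_range.1 hr) (Finset.mem_range.1 hs) h
  have hsum : ∑ r ∈ Finset.range R, ∑ s ∈ Finset.range R, (((if r = s then 1 else 0) : ℝ) + q) =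
      R + R ^ 2 * q := by
    have : ∀ r ∈ Finset.range R, ∑ s ∈ Finset.range R, (((if r = s then 1 else 0) : ℝ) + q) =
        1 + R * q := by
      intro r hr
      rw [Finset.sum_add_distrib, Finset.sum_ite_eq, if_pos hr]
      simp
    rw [Finset.sum_congr rfl this]
    simp
    ring
  rw [hsum] at hbound
  calc ((R : ℝ)⁻¹) ^ 2 * ‖∑ r ∈ Finset.range R, ∑ s ∈ Finset.range R,
        ∫ ω, e ((t r - t s) * x ω) ∂P‖ ≤ ((R : ℝ)⁻¹) ^ 2 * (R + R ^ 2 * q) := by gcongr
    _ = 1 / R + q := by field_simp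

theorem summable_num {a : ℕ} (ha : 2 ≤ a) {d : ℕ → ℕ} (hd : ∀ k, d k < a) :
    Summable fun k => (d k : ℝ) / (a : ℝ) ^ (k + 1) := by
  have ha1 : (1 : ℝ) < a := by exact_mod_cast (by omega : 1 < a)
  have ha0 : (0 : ℝ) < a := by positivity
  have h : Summable fun k : ℕ => ((1 : ℝ) / a) ^ k :=
    summable_geometric_of_lt_one (by positivity) (by rw [div_lt_one ha0]; exact ha1)
  refine h.of_nonneg_of_le (fun k => by positivity) fun k => ?_
  rw [pow_succ, one_div, inv_pow, div_le_iff₀ (by positivity)]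
  have : (d k : ℝ) ≤ a := by exact_mod_cast (hd k).le
  calc (d k : ℝ) ≤ a := this
    _ = ((a : ℝ) ^ k)⁻¹ * ((a : ℝ) ^ k * a) := by field_simp

theorem Digits.measurable_num {a : ℕ} (ha : 2 ≤ a) {X : ℕ → Ω → ℕ} (hX : Digits P a X) :
    Measurable fun ω => num a (fun k => X k ω) := by
  refine measurable_of_tendsto_metrizable (f := fun (n : ℕ) (ω : Ω) =>
    ∑ k ∈ Finset.range n, (X k ω : ℝ) / (a : ℝ) ^ (k + 1)) ?_ ?_
  · intro n
    refine Finset.measurable_sum _ fun k _ => ?_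
    have h1 : Measurable fun ω => (X k ω : ℝ) := measurable_from_top.comp (hX.meas k)
    exact h1.div_const _
  · rw [tendsto_pi_nhds]
    intro ω
    exact (summable_num ha fun k => hX.lt k ω).hasSum.tendsto_sum_nat

/-- choice of a residue class with a large sum -/
theorem exists_class {f : ℕ → ℝ} (hf : ∀ k, 0 ≤ f k)
    (h : Tendsto (fun K : ℕ => ∑ k ∈ Finset.range K, f k) atTop atTop) (c : ℕ) (hc : 1 ≤ c)
    (B : ℝ) : ∃ ρ K : ℕ, B ≤ ∑ k ∈ (Finset.range K).filter (fun k => c ≤ k ∧ k % c = ρ), f k := by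
  obtain ⟨K, hK⟩ := (h.eventually_ge_atTop (c * B + ∑ k ∈ Finset.range c, f k)).exists
  by_contra hcon
  push Not at hcon
  have h1 : ∑ k ∈ (Finset.range K).filter (fun k => c ≤ k), f k =
      ∑ ρ ∈ Finset.range c, ∑ k ∈ (Finset.range K).filter (fun k => c ≤ k ∧ k % c = ρ), f k := by
    rw [← Finset.sum_fiberwise_of_maps_to (g := fun k => k % c) (t := Finset.range c)]
    · refine Finset.sum_congr rfl fun ρ _ => ?_
      rw [Finset.filter_filter]
    · intro k _
      exact Finset.mem_range.2 (Nat.mod_lt _ (by omega))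
  have h2 : ∑ k ∈ Finset.range K, f k ≤
      ∑ k ∈ (Finset.range K).filter (fun k => c ≤ k), f k + ∑ k ∈ Finset.range c, f k := by
    rw [← Finset.sum_filter_add_sum_filter_not (Finset.range K) (fun k => c ≤ k)]
    have : ∑ k ∈ (Finset.range K).filter (fun k => ¬ c ≤ k), f k ≤ ∑ k ∈ Finset.range c, f k := by
      refine Finset.sum_le_sum_of_subset_of_nonneg ?_ fun k _ _ => hf k
      intro k hk
      rw [Finset.mem_filter] at hk
      exact Finset.mem_range.2 (by omega)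
    linarith
  have h3 : ∑ ρ ∈ Finset.range c, ∑ k ∈ (Finset.range K).filter (fun k => c ≤ k ∧ k % c = ρ), f k
      < c * B := by
    calc _ < ∑ _ρ ∈ Finset.range c, B :=
          Finset.sum_lt_sum_of_nonempty ⟨0, Finset.mem_range.2 (by omega)⟩ fun ρ _ => hcon ρ K
      _ = c * B := by simp
  linarith

/-- the assembly for one base `b` -/
theorem one_base (hA : ArithStatement) (hB : CharStatement) (hD : AvgStatement) {a : ℕ}
    (ha : 2 ≤ a) {X : ℕ → Ω → ℕ} (hX : Digits P a X)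
    (hdiv : Tendsto (fun K : ℕ => ∑ k ∈ Finset.range K, eta P a X k) atTop atTop) (t : ℝ)
    (b : ℕ) (hb : 2 ≤ b) (hab : ∃ p : ℕ, p.Prime ∧ p ∣ a ∧ ¬ p ∣ b) :
    ∀ᵐ ω ∂P, orb b (t + num a (fun k => X k ω)) = Icc 0 1 := by
  have hmeas : Measurable fun ω => t + num a (fun k => X k ω) :=
    (hX.measurable_num ha).const_add t
  refine hD Ω P (fun ω => t + num a (fun k => X k ω)) hmeas b ?_
  intro H ε hε
  obtain ⟨v, D, hv, hD1, hArith⟩ := hA a b ha hb hab
  have hv1 : (1 : ℝ) < v := by exact_mod_cast (by omega : 1 < v)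
  obtain ⟨R, hR⟩ := exists_nat_ge (2 / ε + 1)
  have hRpos : (1 : ℝ) ≤ R := by
    have : 0 < 2 / ε := by positivity
    linarith
  have hR1 : 1 ≤ R := by exact_mod_cast hRpos
  have hRinv : 1 / (R : ℝ) ≤ ε / 2 := by
    rw [div_le_div_iff₀ (by positivity) (by positivity)]
    have h1 : 2 / ε ≤ R := by linarith
    rw [div_le_iff₀ hε] at h1
    linarith
  obtain ⟨c0, hc0⟩ := pow_unbounded_of_one_lt (4 * ((H : ℝ) + 1) * a * D * R) hv1
  set c := c0 + 1 with hc
  have hvc : 4 * ((H : ℝ) + 1) * a * D * R ≤ (v : ℝ) ^ c := by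
    refine hc0.le.trans ?_
    exact pow_le_pow_right₀ hv1.le (by omega)
  have hvcpos : (0 : ℝ) < (v : ℝ) ^ c := by positivity
  set δ : ℝ := 1 / (v : ℝ) ^ c with hδ
  have hδ0 : 0 < δ := by positivity
  have ha1 : (1 : ℝ) ≤ a := by exact_mod_cast (by omega : 1 ≤ a)
  have hDr : (1 : ℝ) ≤ D := by exact_mod_cast hD1
  have hH1 : (1 : ℝ) ≤ (H : ℝ) + 1 := by
    have : (0 : ℝ) ≤ H := Nat.cast_nonneg H
    linarith
  have hbig : 4 ≤ (v : ℝ) ^ c := by
    refine le_trans ?_ hvc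
    have e1 : 1 ≤ ((H : ℝ) + 1) * a := one_le_mul_of_one_le_of_one_le hH1 ha1
    have e2 : 1 ≤ ((H : ℝ) + 1) * a * D := one_le_mul_of_one_le_of_one_le e1 hDr
    have e3 : 1 ≤ ((H : ℝ) + 1) * a * D * R := one_le_mul_of_one_le_of_one_le e2 hRpos
    nlinarith
  have hδ4 : δ ≤ 1 / 4 := by
    rw [hδ]
    exact one_div_le_one_div_of_le (by norm_num) hbig
  have hcos : Real.cos (2 * Real.pi * δ) < 1 := by
    have hpi := Real.pi_pos
    have h1 : Real.cos (2 * Real.pi * δ) < Real.cos 0 := by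
      refine Real.cos_lt_cos_of_nonneg_of_le_pi le_rfl ?_ (by positivity)
      nlinarith
    rwa [Real.cos_zero] at h1
  set κ : ℝ := (1 - Real.cos (2 * Real.pi * δ)) / 2 with hκ
  have hκ0 : 0 < κ := by rw [hκ]; linarith
  obtain ⟨B, hB0⟩ : ∃ B : ℝ, Real.exp (-κ * B) ≤ ε / 2 := by
    refine ⟨Real.log (2 / ε) / κ, ?_⟩
    have : -κ * (Real.log (2 / ε) / κ) = - Real.log (2 / ε) := by field_simp
    rw [this, Real.exp_neg, Real.exp_log (by positivity)]
    rw [inv_div]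
  obtain ⟨ρ, K, hK⟩ := exists_class (fun k => hX.eta_nonneg ha k)
    hdiv c (by omega) B
  obtain ⟨m, y, hmy⟩ := hArith c ρ K (by omega)
  refine ⟨R, m, hR1, ?_⟩
  intro h hh0 hhH
  have hmain : ∀ r s : ℕ, r < R → s < R → r ≠ s →
      ‖∫ ω, e ((h * (b : ℝ) ^ m r - h * (b : ℝ) ^ m s) * (t + num a (fun k => X k ω))) ∂P‖ ≤
        ε / 2 := by
    intro r s hr hs hrs
    have hshift : ‖∫ ω, e ((h * (b : ℝ) ^ m r - h * (b : ℝ) ^ m s) *
        (t + num a (fun k => X k ω))) ∂P‖ =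
        ‖∫ ω, e ((h * (b : ℝ) ^ m r - h * (b : ℝ) ^ m s) * num a (fun k => X k ω)) ∂P‖ := by
      have e1 : ∀ ω, e ((h * (b : ℝ) ^ m r - h * (b : ℝ) ^ m s) *
          (t + num a (fun k => X k ω))) = e ((h * (b : ℝ) ^ m r - h * (b : ℝ) ^ m s) * t) *
          e ((h * (b : ℝ) ^ m r - h * (b : ℝ) ^ m s) * num a (fun k => X k ω)) := by
        intro ω
        rw [mul_add, e_add]
      simp only [e1]
      rw [integral_const_mul, norm_mul, norm_e, one_mul]
    rw [hshift]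
    have hBB := hB Ω P a ha X hX (h * (b : ℝ) ^ m r - h * (b : ℝ) ^ m s) δ hδ0
      (hδ4.trans (by norm_num)) ((Finset.range K).filter (fun k => c ≤ k ∧ k % c = ρ)) ?_
    · refine hBB.trans (le_trans ?_ hB0)
      refine Real.exp_le_exp.2 ?_
      have := mul_le_mul_of_nonneg_left hK hκ0.le
      have e1 : -((1 - Real.cos (2 * Real.pi * δ)) / 2) = -κ := rfl
      rw [e1]
      linarith
    · intro k hk d d' hd hd' hdd
      rw [Finset.mem_filter, Finset.mem_range] at hk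
      obtain ⟨hkK, hck, hkρ⟩ := hk
      obtain ⟨hy1, hy2, hM⟩ := hmy k hck hkK hkρ
      obtain ⟨M, hM⟩ := hM r s
      refine ⟨h * ((d : ℤ) - d') * M, ?_⟩
      have hexpr : (h * (b : ℝ) ^ m r - h * (b : ℝ) ^ m s) * ((d : ℝ) - d') / (a : ℝ) ^ (k + 1) -
          ((h * ((d : ℤ) - d') * M : ℤ) : ℝ) =
          (h * ((d : ℤ) - d') * ((r : ℤ) - s) : ℤ) * (D * y k) := by
        have : (h * (b : ℝ) ^ m r - h * (b : ℝ) ^ m s) * ((d : ℝ) - d') / (a : ℝ) ^ (k + 1) =
            h * ((d : ℝ) - d') * (((b : ℝ) ^ m r - (b : ℝ) ^ m s) / (a : ℝ) ^ (k + 1)) := by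
          ring
        rw [this, hM]
        push_cast
        ring
      rw [hexpr, abs_mul]
      have hypos : 0 < y k := lt_of_lt_of_le (by positivity) hy1
      have hDy : |(D : ℝ) * y k| = D * y k := abs_of_nonneg (by positivity)
      rw [hDy]
      set w : ℤ := h * ((d : ℤ) - d') * ((r : ℤ) - s) with hw
      have hw0 : w ≠ 0 := by
        rw [hw]
        refine mul_ne_zero (mul_ne_zero hh0 ?_) ?_
        · rw [sub_ne_zero]
          exact_mod_cast hdd
        · rw [sub_ne_zero]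
          exact_mod_cast hrs
      have hw1 : (1 : ℝ) ≤ |(w : ℝ)| := by
        rw [← Int.cast_abs]
        exact_mod_cast Int.one_le_abs hw0
      have hw2 : |(w : ℝ)| ≤ ((H : ℝ) + 1) * a * R := by
        rw [hw]
        push_cast
        rw [abs_mul, abs_mul]
        have b1 : |(h : ℝ)| ≤ (H : ℝ) + 1 := by
          have : ((|h| : ℤ) : ℝ) ≤ (H : ℝ) := by exact_mod_cast hhH
          rw [Int.cast_abs] at this
          linarith
        have b2 : |((d : ℝ) - d')| ≤ a := by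
          rw [abs_le]
          have q1 : (d : ℝ) ≤ a := by exact_mod_cast hd.le
          have q2 : (d' : ℝ) ≤ a := by exact_mod_cast hd'.le
          have q3 : (0 : ℝ) ≤ d := Nat.cast_nonneg d
          have q4 : (0 : ℝ) ≤ d' := Nat.cast_nonneg d'
          constructor <;> linarith
        have b3 : |((r : ℝ) - s)| ≤ R := by
          rw [abs_le]
          have q1 : (r : ℝ) ≤ R := by exact_mod_cast hr.le
          have q2 : (s : ℝ) ≤ R := by exact_mod_cast hs.le
          have q3 : (0 : ℝ) ≤ r := Nat.cast_nonneg r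
          have q4 : (0 : ℝ) ≤ s := Nat.cast_nonneg s
          constructor <;> linarith
        gcongr
      constructor
      · calc δ ≤ y k := hy1
          _ ≤ |(w : ℝ)| * (D * y k) := by
            have e1 : y k ≤ D * y k := le_mul_of_one_le_left hypos.le hDr
            have e2 : D * y k ≤ |(w : ℝ)| * (D * y k) :=
              le_mul_of_one_le_left (by positivity) hw1
            linarith
      · calc |(w : ℝ)| * (D * y k) ≤ (((H : ℝ) + 1) * a * R) * (D * (2 / (v : ℝ) ^ c)) := by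
              gcongr
          _ = (4 * ((H : ℝ) + 1) * a * D * R) * (1 / (2 * (v : ℝ) ^ c)) := by
              field_simp
              ring
          _ ≤ (v : ℝ) ^ c * (1 / (2 * (v : ℝ) ^ c)) := by gcongr
          _ = 1 / 2 := by field_simp
  have hfin := second_moment (P := P) hmeas R hR1 (fun r => h * (b : ℝ) ^ m r) (ε / 2)
    (by positivity) hmain
  refine hfin.trans ?_
  linarith

/-- all bases at once -/
theorem all_bases (hA : ArithStatement) (hB : CharStatement) (hD : AvgStatement) {a : ℕ}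
    (ha : 2 ≤ a) {X : ℕ → Ω → ℕ} (hX : Digits P a X)
    (hdiv : Tendsto (fun K : ℕ => ∑ k ∈ Finset.range K, eta P a X k) atTop atTop) (t : ℝ) :
    ∀ᵐ ω ∂P, ∀ b : ℕ, 2 ≤ b → (∃ p : ℕ, p.Prime ∧ p ∣ a ∧ ¬ p ∣ b) →
      orb b (t + num a (fun k => X k ω)) = Icc 0 1 := by
  rw [ae_all_iff]
  intro b
  by_cases h : 2 ≤ b ∧ ∃ p : ℕ, p.Prime ∧ p ∣ a ∧ ¬ p ∣ b
  · filter_upwards [one_base hA hB hD ha hX hdiv t b h.1 h.2] with ω hω _ _
    exact hω
  · exact Eventually.of_forall fun ω h1 h2 => absurd ⟨h1, h2⟩ h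

/-- **Independent digits.** -/
theorem main_of (hA : ArithStatement) (hB : CharStatement) (hD : AvgStatement) {a : ℕ}
    (ha : 2 ≤ a) {X : ℕ → Ω → ℕ} (hX : Digits P a X)
    (hat : ∀ r : ℝ, P {ω | num a (fun k => X k ω) = r} = 0) (t : ℝ) :
    ∀ᵐ ω ∂P, Irrational (t + num a (fun k => X k ω)) ∧
      ∀ b : ℕ, 2 ≤ b → (∃ p : ℕ, p.Prime ∧ p ∣ a ∧ ¬ p ∣ b) →
        orb b (t + num a (fun k => X k ω)) = Icc 0 1 := by
  have h1 := all_bases hA hB hD ha hX (divergence Ω P a ha X hX hat) t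
  have h2 : ∀ᵐ ω ∂P, ∀ q : ℚ, num a (fun k => X k ω) ≠ q - t := by
    rw [ae_all_iff]
    intro q
    exact measure_eq_zero_iff_ae_notMem.1 (hat (q - t))
  filter_upwards [h1, h2] with ω hω1 hω2
  refine ⟨?_, hω1⟩
  rintro ⟨q, hq⟩
  exact hω2 q (by linarith)

end Pool.Agent.R191.FD
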