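import Pool.Agent.R191.FD.Defs

/-!
# Random numbers with independent digits, Part E: sparse digits give a countable orbit closure
-/

set_option autoImplicit false

namespace Pool.Agent.R191.FD

open MeasureTheory ProbabilityTheory Filter Topology Set

/-- the number with the digits `d n, d (n+1), …` -/
noncomputable def ff (a : ℕ) (d : ℕ → ℕ) (n : ℕ) : ℝ := num a (fun j => d (n + j))

theorem num_term_le {a : ℕ} (ha : 2 ≤ a) {d : ℕ → ℕ} (hd : ∀ k, d k < a) (k : ℕ) :
    (d k : ℝ) / (a : ℝ) ^ (k + 1) ≤ ((a : ℝ) - 1) / a * ((a : ℝ)⁻¹) ^ k := by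
  have ha0 : (0 : ℝ) < a := by positivity
  have h1 : (d k : ℝ) ≤ (a : ℝ) - 1 := by
    have : d k + 1 ≤ a := hd k
    have : ((d k + 1 : ℕ) : ℝ) ≤ a := by exact_mod_cast this
    push_cast at this
    linarith
  rw [inv_pow, pow_succ]
  have : ((a : ℝ) - 1) / a * ((a : ℝ) ^ k)⁻¹ = ((a : ℝ) - 1) / ((a : ℝ) ^ k * a) := by
    field_simp
  rw [this]
  gcongr

theorem geo_hasSum {a : ℕ} (ha : 2 ≤ a) :
    HasSum (fun k : ℕ => ((a : ℝ) - 1) / a * ((a : ℝ)⁻¹) ^ k) 1 := by
  have ha2 : (2 : ℝ) ≤ a := by exact_mod_cast ha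
  have h := (hasSum_geometric_of_lt_one (r := (a : ℝ)⁻¹) (by positivity)
    (inv_lt_one_of_one_lt₀ (by linarith))).mul_left (((a : ℝ) - 1) / a)
  have e : ((a : ℝ) - 1) / a * (1 - (a : ℝ)⁻¹)⁻¹ = 1 := by
    have h1 : ((a : ℝ) - 1) / a = 1 - (a : ℝ)⁻¹ := by
      have : (a : ℝ) ≠ 0 := by positivity
      field_simp
    have h2 : (a : ℝ)⁻¹ < 1 := inv_lt_one_of_one_lt₀ (by linarith)
    rw [h1]
    exact mul_inv_cancel₀ (by linarith)
  rwa [e] at h

theorem num_summable {a : ℕ} (ha : 2 ≤ a) {d : ℕ → ℕ} (hd : ∀ k, d k < a) :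
    Summable fun k : ℕ => (d k : ℝ) / (a : ℝ) ^ (k + 1) :=
  Summable.of_nonneg_of_le (fun k => by positivity) (num_term_le ha hd) (geo_hasSum ha).summable

theorem num_nonneg {a : ℕ} (d : ℕ → ℕ) : 0 ≤ num a d :=
  tsum_nonneg fun k => by positivity

theorem num_le_one {a : ℕ} (ha : 2 ≤ a) {d : ℕ → ℕ} (hd : ∀ k, d k < a) : num a d ≤ 1 := by
  rw [← (geo_hasSum ha).tsum_eq]
  exact (num_summable ha hd).tsum_le_tsum (num_term_le ha hd) (geo_hasSum ha).summable

theorem ff_split {a : ℕ} (ha : 2 ≤ a) {d : ℕ → ℕ} (hd : ∀ k, d k < a) (n m : ℕ) :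
    ff a d n = ∑ i ∈ Finset.range m, (d (n + i) : ℝ) / (a : ℝ) ^ (i + 1)
      + ff a d (n + m) / (a : ℝ) ^ m := by
  have ha0 : (0 : ℝ) < a := by positivity
  unfold ff num
  rw [← (num_summable ha (d := fun j => d (n + j)) fun k => hd _).sum_add_tsum_nat_add m]
  congr 1
  rw [← tsum_div_const]
  refine tsum_congr fun k => ?_
  rw [show n + (k + m) = n + m + k by ring, div_div]
  congr 1
  rw [← pow_add]
  congr 1
  ring

theorem pow_mul_num {a : ℕ} (ha : 2 ≤ a) {d : ℕ → ℕ} (hd : ∀ k, d k < a) (n : ℕ) :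
    ∃ m : ℤ, (a : ℝ) ^ n * num a d = m + ff a d n := by
  have ha0 : (0 : ℝ) < a := by positivity
  have h := ff_split ha hd 0 n
  have h0 : ff a d 0 = num a d := by simp [ff]
  rw [h0] at h
  simp only [zero_add] at h
  refine ⟨∑ i ∈ Finset.range n, (d i : ℤ) * (a : ℤ) ^ (n - (i + 1)), ?_⟩
  rw [h, mul_add, Finset.mul_sum]
  push_cast
  congr 1
  · refine Finset.sum_congr rfl fun i hi => ?_
    have hi' := Finset.mem_range.1 hi
    have : (a : ℝ) ^ n = (a : ℝ) ^ (n - (i + 1)) * (a : ℝ) ^ (i + 1) := by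
      rw [← pow_add]; congr 1; omega
    rw [this]
    field_simp
  · field_simp

theorem sparse : SparseStatement := by
  intro a ha d hd hsp
  have ha0 : (0 : ℝ) < a := by positivity
  have ha2 : (2 : ℝ) ≤ a := by exact_mod_cast ha
  have hf0 : ∀ n, 0 ≤ ff a d n := fun n => num_nonneg _
  have hf1 : ∀ n, ff a d n ≤ 1 := fun n => num_le_one ha fun k => hd _
  set g : ℕ → ℝ := fun n => Int.fract ((a : ℝ) ^ n * num a d) with hg
  have hgf : ∀ n, g n = ff a d n ∨ g n = 0 := by
    intro n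
    obtain ⟨m, hm⟩ := pow_mul_num ha hd n
    simp only [hg]
    rw [hm, Int.fract_intCast_add]
    rcases (hf1 n).lt_or_eq with h | h
    · left; exact Int.fract_eq_self.2 ⟨hf0 n, h⟩
    · right; rw [h]; simp
  -- approximation of the tails
  have happ : ∀ L : ℕ, ∀ᶠ n in atTop, ∃ c j : ℕ, c < a ∧
      |ff a d n - (c : ℝ) / (a : ℝ) ^ (j + 1)| ≤ 1 / (a : ℝ) ^ (L + 1) := by
    intro L
    obtain ⟨N, hN⟩ := eventually_atTop.1 (hsp L)
    filter_upwards [eventually_ge_atTop N] with n hn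
    have htail : ∀ S : ℝ, ff a d n = S + ff a d (n + (L + 1)) / (a : ℝ) ^ (L + 1) →
        |ff a d n - S| ≤ 1 / (a : ℝ) ^ (L + 1) := by
      intro S hS
      rw [hS]
      have h1 := hf0 (n + (L + 1))
      have h2 := hf1 (n + (L + 1))
      rw [add_sub_cancel_left, abs_of_nonneg (by positivity)]
      gcongr
    have hsplit := ff_split ha hd n (L + 1)
    by_cases h : ∃ i ∈ Finset.range (L + 1), d (n + i) ≠ 0
    · obtain ⟨i, hi, hne⟩ := h
      refine ⟨d (n + i), i, hd _, htail _ ?_⟩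
      rw [Finset.sum_eq_single i] at hsplit
      · exact hsplit
      · intro j hj hji
        have hi' := Finset.mem_range.1 hi
        have hj' := Finset.mem_range.1 hj
        have : d (n + j) = 0 := by
          rcases lt_or_gt_of_ne hji with hlt | hlt
          · rcases hN (n + j) (by omega) (n + i) (by omega) (by omega) with h | h
            · exact h
            · exact absurd h hne
          · rcases hN (n + i) (by omega) (n + j) (by omega) (by omega) with h | h
            · exact absurd h hne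
            · exact h
        rw [this]; simp
      · intro hni; exact absurd hi hni
    · push Not at h
      refine ⟨0, 0, by omega, htail _ ?_⟩
      rw [Finset.sum_eq_zero fun i hi => by rw [h i hi]; simp] at hsplit
      simpa using hsplit
  -- the countable set
  set S : Set ℝ := range (ff a d) ∪ ({0} ∪
    range fun cj : ℕ × ℕ => (cj.1 : ℝ) / (a : ℝ) ^ (cj.2 + 1)) with hS
  have hScount : S.Countable :=
    (countable_range _).union ((countable_singleton _).union (countable_range _))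
  have hsub : orb a (num a d) ⊆ S := by
    intro y hy
    by_contra hyS
    have hy' : y ∈ closure (range g) := hy
    have hy0 : 0 ≤ y := by
      have : range g ⊆ Ici 0 := by
        rintro _ ⟨n, rfl⟩
        show (0 : ℝ) ≤ Int.fract ((a : ℝ) ^ n * num a d)
        exact Int.fract_nonneg _
      exact closure_minimal this isClosed_Ici hy'
    have hyne : y ≠ 0 := fun h => hyS (Or.inr (Or.inl h))
    have hypos : 0 < y := lt_of_le_of_ne hy0 (Ne.symm hyne)
    have hyg : ∀ n, y ≠ g n := by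
      intro n h
      rcases hgf n with h1 | h1
      · exact hyS (Or.inl ⟨n, by rw [h, h1]⟩)
      · exact hyne (h.trans h1)
    have hclus : ∀ (N : ℕ) (ε : ℝ), 0 < ε → ∃ n, N ≤ n ∧ |y - g n| < ε := by
      intro N ε hε
      have h1 : range g ⊆ (g '' (Finset.range N : Set ℕ)) ∪ g '' {n | N ≤ n} := by
        rintro _ ⟨n, rfl⟩
        by_cases hn : n < N
        · left; exact ⟨n, by simpa using hn, rfl⟩
        · right; exact ⟨n, by simpa using hn, rfl⟩
      have h2 := closure_mono h1 hy'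
      rw [closure_union] at h2
      rcases h2 with h2 | h2
      · have hfin : (g '' (Finset.range N : Set ℕ)).Finite := (Finset.finite_toSet _).image _
        rw [hfin.isClosed.closure_eq] at h2
        obtain ⟨n, _, hn⟩ := h2
        exact absurd hn.symm (hyg n)
      · obtain ⟨_, ⟨n, hn, rfl⟩, hd'⟩ := Metric.mem_closure_iff.1 h2 ε hε
        exact ⟨n, hn, by rwa [Real.dist_eq] at hd'⟩
    -- powers become small
    have hinv : Tendsto (fun n : ℕ => ((a : ℝ)⁻¹) ^ n) atTop (𝓝 0) :=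
      tendsto_pow_atTop_nhds_zero_of_lt_one (by positivity) (inv_lt_one_of_one_lt₀ (by linarith))
    obtain ⟨J, hJ⟩ := eventually_atTop.1 (hinv.eventually (gt_mem_nhds (half_pos hypos)))
    -- the finite set
    set F : Set ℝ := (fun cj : ℕ × ℕ => (cj.1 : ℝ) / (a : ℝ) ^ (cj.2 + 1)) ''
      ((Finset.range a ×ˢ Finset.range J : Finset (ℕ × ℕ)) : Set (ℕ × ℕ)) with hF
    have hFfin : F.Finite := (Finset.finite_toSet _).image _
    have hyF : y ∉ F := by
      rintro ⟨cj, _, h⟩
      exact hyS (Or.inr (Or.inr ⟨cj, h⟩))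
    obtain ⟨δ, hδ, hδF⟩ := Metric.isOpen_iff.1 hFfin.isClosed.isOpen_compl y hyF
    set ε := min δ (y / 2) with hε
    have hεpos : 0 < ε := lt_min hδ (by linarith)
    obtain ⟨L, hL⟩ := eventually_atTop.1 (hinv.eventually (gt_mem_nhds (half_pos hεpos)))
    obtain ⟨N, hN⟩ := eventually_atTop.1 (happ L)
    obtain ⟨n, hn, hyn⟩ := hclus N (ε / 2) (by positivity)
    have hεy : ε ≤ y / 2 := min_le_right _ _
    have hgn : g n = ff a d n := by
      rcases hgf n with h | h
      · exact h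
      · rw [h, sub_zero, abs_of_pos hypos] at hyn
        linarith
    obtain ⟨c, j, hc, hcj⟩ := hN n hn
    have h3 : 1 / (a : ℝ) ^ (L + 1) < ε / 2 := by
      have := hL (L + 1) (by omega)
      rwa [inv_pow, inv_eq_one_div] at this
    have h4 : |y - (c : ℝ) / (a : ℝ) ^ (j + 1)| < ε := by
      have := abs_sub_le y (g n) ((c : ℝ) / (a : ℝ) ^ (j + 1))
      rw [hgn] at this hyn
      linarith
    by_cases hjJ : j < J
    · have h5 : (c : ℝ) / (a : ℝ) ^ (j + 1) ∈ F :=
        ⟨(c, j), by simp [hc, hjJ], rfl⟩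
      have h6 : (c : ℝ) / (a : ℝ) ^ (j + 1) ∈ Metric.ball y δ := by
        rw [Metric.mem_ball, Real.dist_eq, abs_sub_comm]
        exact h4.trans_le (min_le_left _ _)
      exact hδF h6 h5
    · push Not at hjJ
      have h5 := hJ j hjJ
      have h6 : (c : ℝ) / (a : ℝ) ^ (j + 1) ≤ ((a : ℝ)⁻¹) ^ j := by
        have hc' : (c : ℝ) ≤ a := by exact_mod_cast hc.le
        rw [pow_succ, inv_pow, div_le_iff₀ (by positivity)]
        have : ((a : ℝ) ^ j)⁻¹ * ((a : ℝ) ^ j * a) = a := by field_simp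
        rw [this]
        exact hc'
      have h7 := (abs_lt.1 h4).2
      linarith
  exact (hScount.mono hsub).dimH_zero

end Pool.Agent.R191.FD
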